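import Pool.Agent.Y308.BQ.LayerU
import Pool.Agent.Helper807.BT.A2T

/-!
# Uniform versions of the estimates of `Pool.Agent.Helper807.BT.A2T` (helper308)

The proofs are those of the starting file `Pool/Agent/Helper807/BT/A2T.lean`, with the measures
quantified after the constants.
-/

set_option autoImplicit false

open MeasureTheory Set
open scoped ENNReal

namespace Pool.Agent.Y308.BQ

noncomputable section

open Pool.Agent.Helper807.BT

variable {X : Type*} [MeasurableSpace X]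

theorem A2U (θ h : X → ℝ) (geo : Geo θ h) (C0 : ℝ) (hC : 0 ≤ C0) :
    ∃ A : ℝ, 0 ≤ A ∧ ∀ (s w : Measure X) (_ : IsFiniteMeasure s) (_ : IsFiniteMeasure w),
      Testing θ h s w C0 → Testing θ h w s C0 → A2 θ h s w A := by
  obtain ⟨C1, hC10, hC1'⟩ := HHU θ h geo C0 hC 256 (by norm_num)
  set D1 : ℝ := max C1 0 with hD1
  set D2 : ℝ := max C1 0 with hD2
  have hD10 : 0 ≤ D1 := le_max_right _ _
  have hD20 : 0 ≤ D2 := le_max_right _ _
  set D : ℝ := 8 * D1 + 8 * D2 + 16 * C0 * 20 ^ 4 with hD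
  have hD0 : 0 ≤ D := by positivity
  refine ⟨512 * D, by positivity, ?_⟩
  intro s w _ _ hT hT' a l hl hl1
  have hC1 := hC1' s w inferInstance inferInstance hT
  have hC2 := hC1' w s inferInstance inferInstance hT'
  -- bounds of the three types
  have bA : ∀ (t h0 δ : ℝ), 0 < h0 → h0 ≤ δ → δ ≤ 1 →
      w (SA7110 θ h t h0) * s (SB7110 θ h t h0) ≤ ENNReal.ofReal (D1 * δ ^ 4) := by
    intro t h0 δ hh0 hhδ hδ1
    apply toReal_bound_7110
    refine (hC1 t h0 hh0 (hhδ.trans hδ1)).trans ?_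
    calc C1 * h0 ^ 4 ≤ D1 * h0 ^ 4 := mul_le_mul_of_nonneg_right (le_max_left _ _) (by positivity)
      _ ≤ D1 * δ ^ 4 := mul_le_mul_of_nonneg_left (pow_le_pow_left₀ hh0.le hhδ 4) hD10
  have bB : ∀ (t h0 δ : ℝ), 0 < h0 → h0 ≤ δ → δ ≤ 1 →
      w (SB7110 θ h t h0) * s (SA7110 θ h t h0) ≤ ENNReal.ofReal (D2 * δ ^ 4) := by
    intro t h0 δ hh0 hhδ hδ1
    rw [mul_comm]
    apply toReal_bound_7110
    refine (hC2 t h0 hh0 (hhδ.trans hδ1)).trans ?_
    calc C1 * h0 ^ 4 ≤ D2 * h0 ^ 4 := mul_le_mul_of_nonneg_right (le_max_left _ _) (by positivity)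
      _ ≤ D2 * δ ^ 4 := mul_le_mul_of_nonneg_left (pow_le_pow_left₀ hh0.le hhδ 4) hD20
  have bC : ∀ (t δ : ℝ), 0 < δ → δ ≤ 1 →
      w (arcBox θ h t (δ / 256)) * s (SD7110 θ h t δ) ≤ ENNReal.ofReal (16 * C0 * 20 ^ 4 * δ ^ 4) := by
    intro t δ hδ hδ1
    apply toReal_bound_7110
    have hm : MeasurableSet (SD7110 θ h t δ) := by
      have m1 : Measurable fun y => nd (θ y - t) :=
        measurable_nd_7110.comp (geo.mθ.sub measurable_const)
      exact (measurableSet_le geo.mh measurable_const).inter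
        ((measurableSet_le measurable_const m1).inter (measurableSet_le m1 measurable_const))
    refine (LB θ h geo s w C0 hC hT' t (δ / 256) (by positivity) (by linarith) (20 * δ)
      (SD7110 θ h t δ) hm ?_).trans (le_of_eq (by ring))
    intro x hx y hy
    have hx1 : nd (θ x - t) ≤ δ / 256 := by
      refine (nd_le_7110 _ ⌊θ x - t⌋).trans ?_
      have e : θ x - t - (⌊θ x - t⌋ : ℝ) = Int.fract (θ x - t) := Int.self_sub_floor _
      rw [e, abs_of_nonneg (Int.fract_nonneg _)]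
      exact hx.1.le
    have hx2 : h x ≤ δ / 256 := hx.2
    obtain ⟨hy1, hy2, hy3⟩ := hy
    have e1 : θ y - t = (θ y - θ x) + (θ x - t) := by ring
    have e2 : θ y - θ x = (θ y - t) + -(θ x - t) := by ring
    have k1 : nd (θ y - t) ≤ nd (θ y - θ x) + nd (θ x - t) := by rw [e1]; exact nd_add_7110 _ _
    have k2 : nd (θ y - θ x) ≤ nd (θ y - t) + nd (θ x - t) := by
      rw [e2]
      refine (nd_add_7110 _ _).trans ?_
      rw [nd_neg_7110]
    have k3 : 2 * nd (θ y - θ x) ≤ ‖den (θ y, h y) (θ x, h x)‖ :=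
      den_ge_nd (u := (θ y, h y)) (v := (θ x, h x)) (geo.h0 y).le (geo.h1 y) (geo.h0 x).le
        (geo.h1 x)
    have k4 : ‖den (θ y, h y) (θ x, h x)‖ ≤ h y + h x + 2 * Real.pi * nd (θ y - θ x) :=
      den_le (u := (θ y, h y)) (v := (θ x, h x)) (geo.h0 y).le (geo.h1 y) (geo.h0 x).le (geo.h1 x)
    have hpi := Real.pi_lt_d2
    norm_num at hpi
    constructor
    · linarith
    · refine k4.trans ?_
      have k5 : nd (θ y - θ x) ≤ 2 * δ + δ / 256 := by linarith
      have k6 : 2 * Real.pi * nd (θ y - θ x) ≤ 7 * (2 * δ + δ / 256) := by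
        have := nd_nonneg_7110 (θ y - θ x)
        have hpi0 := Real.pi_pos
        calc 2 * Real.pi * nd (θ y - θ x) ≤ 7 * nd (θ y - θ x) :=
              mul_le_mul_of_nonneg_right (by linarith) this
          _ ≤ _ := by linarith
      linarith
  -- the union bound
  have hmain : w (arcBox θ h a l) * s (arcBox θ h a l) ≤
      ∑' j : ℕ, ENNReal.ofReal (256 * D * l ^ 4 * (1 / 8) ^ j) := by
    rw [← Measure.prod_prod]
    refine (measure_mono (cover_7110 geo hl hl1)).trans ?_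
    refine (measure_iUnion_le _).trans ?_
    apply ENNReal.tsum_le_tsum
    intro j
    set δ : ℝ := l * (1 / 2) ^ j with hδ
    have hδ0 : 0 < δ := by positivity
    have hδ1 : δ ≤ 1 := by
      rw [hδ]
      have : (1 / 2 : ℝ) ^ j ≤ 1 := pow_le_one₀ (by norm_num) (by norm_num)
      nlinarith [pow_pos (show (0 : ℝ) < 1 / 2 by norm_num) j]
    refine (measure_biUnion_finset_le _ _).trans ?_
    have hk : ∀ k ∈ Finset.range (2 ^ (j + 8)),
        (w.prod s) (((⋃ i ∈ Finset.range 8,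
        (SA7110 θ h (a + k * (δ / 256)) (δ * (1 / 2) ^ i) ×ˢ
          SB7110 θ h (a + k * (δ / 256)) (δ * (1 / 2) ^ i))) ∪
      (⋃ i ∈ Finset.range 8,
        (SB7110 θ h (a + k * (δ / 256)) (δ * (1 / 2) ^ i) ×ˢ
          SA7110 θ h (a + k * (δ / 256)) (δ * (1 / 2) ^ i)))) ∪
      (arcBox θ h (a + k * (δ / 256)) (δ / 256) ×ˢ
        SD7110 θ h (a + k * (δ / 256)) δ)) ≤ ENNReal.ofReal (D * δ ^ 4) := by
      intro k _
      have hi0 : ∀ i : ℕ, 0 < δ * (1 / 2) ^ i := fun i => by positivity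
      have hi1 : ∀ i : ℕ, δ * (1 / 2) ^ i ≤ δ := fun i => by
        have : (1 / 2 : ℝ) ^ i ≤ 1 := pow_le_one₀ (by norm_num) (by norm_num)
        nlinarith
      have u1 : (w.prod s) (⋃ i ∈ Finset.range 8,
          (SA7110 θ h (a + k * (δ / 256)) (δ * (1 / 2) ^ i) ×ˢ
          SB7110 θ h (a + k * (δ / 256)) (δ * (1 / 2) ^ i))) ≤ ENNReal.ofReal (8 * (D1 * δ ^ 4)) := by
        refine (measure_biUnion_finset_le _ _).trans ?_
        refine (Finset.sum_le_sum fun i _ => ?_).trans (b := ∑ i ∈ Finset.range 8,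
          ENNReal.ofReal (D1 * δ ^ 4)) ?_
        · rw [Measure.prod_prod]
          exact bA _ _ _ (hi0 i) (hi1 i) hδ1
        · exact (const_8_7110 _).le
      have u2 : (w.prod s) (⋃ i ∈ Finset.range 8,
          (SB7110 θ h (a + k * (δ / 256)) (δ * (1 / 2) ^ i) ×ˢ
          SA7110 θ h (a + k * (δ / 256)) (δ * (1 / 2) ^ i))) ≤ ENNReal.ofReal (8 * (D2 * δ ^ 4)) := by
        refine (measure_biUnion_finset_le _ _).trans ?_
        refine (Finset.sum_le_sum fun i _ => ?_).trans (b := ∑ i ∈ Finset.range 8,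
          ENNReal.ofReal (D2 * δ ^ 4)) ?_
        · rw [Measure.prod_prod]
          exact bB _ _ _ (hi0 i) (hi1 i) hδ1
        · exact (const_8_7110 _).le
      have u3 : (w.prod s) (arcBox θ h (a + k * (δ / 256)) (δ / 256) ×ˢ
        SD7110 θ h (a + k * (δ / 256)) δ) ≤ ENNReal.ofReal (16 * C0 * 20 ^ 4 * δ ^ 4) := by
        rw [Measure.prod_prod]
        exact bC _ _ hδ0 hδ1
      refine (measure_union_le _ _).trans ?_
      refine (add_le_add ((measure_union_le _ _).trans (add_le_add u1 u2)) u3).trans ?_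
      rw [← ENNReal.ofReal_add (by positivity) (by positivity),
        ← ENNReal.ofReal_add (by positivity) (by positivity)]
      apply ENNReal.ofReal_le_ofReal
      rw [hD]
      apply le_of_eq
      ring
    refine (Finset.sum_le_sum hk).trans ?_
    rw [Finset.sum_const, Finset.card_range, nsmul_eq_mul]
    have e3 : (((2 ^ (j + 8) : ℕ)) : ENNReal) = ENNReal.ofReal ((2 : ℝ) ^ (j + 8)) := by
      rw [ENNReal.ofReal_pow (by norm_num)]
      norm_num
    rw [e3, ← ENNReal.ofReal_mul (by positivity)]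
    apply ENNReal.ofReal_le_ofReal
    apply le_of_eq
    rw [hδ, pow_add, mul_pow]
    have e4 : (2 : ℝ) ^ j * ((1 / 2) ^ j) ^ 4 = (1 / 8) ^ j := by
      rw [← pow_mul, mul_comm j 4, pow_mul, ← mul_pow]
      norm_num
    calc (2 : ℝ) ^ j * 2 ^ 8 * (D * (l ^ 4 * ((1 / 2) ^ j) ^ 4))
        = 256 * D * l ^ 4 * ((2 : ℝ) ^ j * ((1 / 2) ^ j) ^ 4) := by ring
      _ = _ := by rw [e4]
  have hsum : ∑' j : ℕ, ENNReal.ofReal (256 * D * l ^ 4 * (1 / 8) ^ j) ≤
      ENNReal.ofReal (512 * D * l ^ 4) := by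
    have hs : Summable fun j : ℕ => 256 * D * l ^ 4 * (1 / 8 : ℝ) ^ j :=
      (summable_geometric_of_lt_one (by norm_num) (by norm_num)).mul_left _
    rw [← ENNReal.ofReal_tsum_of_nonneg (fun j => by positivity) hs]
    apply ENNReal.ofReal_le_ofReal
    rw [tsum_mul_left, tsum_geometric_of_lt_one (by norm_num) (by norm_num)]
    have : 0 ≤ D * l ^ 4 := by positivity
    norm_num
    linarith
  have hfin := hmain.trans hsum
  have h5 : (s (arcBox θ h a l)).toReal * (w (arcBox θ h a l)).toReal =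
      (w (arcBox θ h a l) * s (arcBox θ h a l)).toReal := by
    rw [ENNReal.toReal_mul, mul_comm]
  rw [h5]
  exact ENNReal.toReal_le_of_le_ofReal (by positivity) hfin

end

end Pool.Agent.Y308.BQ
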