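import Pool.Agent.Y308.BQ.MainU
import Pool.Agent.Helper807.BT.Disc4

/-!
# From the abstract uniform estimate to the disc (helper308)
-/

set_option autoImplicit false

open MeasureTheory Set Filter
open scoped ENNReal Topology

namespace Pool.Agent.Y308.BQ

noncomputable section

open Pool.Agent.Helper807.BT

/-- the uniform estimate, homogeneous in the testing constant -/
theorem realS {X : Type*} [MeasurableSpace X] (θ h : X → ℝ) (geo : Geo θ h) :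
    ∃ κ : ℝ, 0 ≤ κ ∧ ∀ (s w : Measure X) (_ : IsFiniteMeasure s) (_ : IsFiniteMeasure w) (c : ℝ),
    0 < c → Testing θ h s w c → Testing θ h w s c → ∀ f : X → ℝ, Measurable f →
    ∫⁻ x, ‖f x‖ₑ ^ 2 ∂s < ∞ →
    ∫⁻ x, ‖Pop θ h s f x‖ₑ ^ 2 ∂w ≤ ENNReal.ofReal (κ * c) * ∫⁻ x, ‖f x‖ₑ ^ 2 ∂s := by
  obtain ⟨κ, hκ, H⟩ := realU θ h geo 1 zero_le_one
  refine ⟨κ, hκ, ?_⟩
  intro s w _ _ c hc hT hT' f hf hf2
  set k : ℝ≥0∞ := ENNReal.ofReal c with hk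
  have hk0 : k ≠ 0 := by rw [hk, Ne, ENNReal.ofReal_eq_zero]; linarith
  have hkt : k ≠ ∞ := ENNReal.ofReal_ne_top
  have hki : k⁻¹ ≠ ∞ := ENNReal.inv_ne_top.2 hk0
  have hkk : k⁻¹ * k = 1 := ENNReal.inv_mul_cancel hk0 hkt
  have hfinw : IsFiniteMeasure (k⁻¹ • w) := Measure.smul_finite w hki
  have t1 : Testing θ h s (k⁻¹ • w) 1 := by
    intro a l hl hl1
    rw [lintegral_smul_measure, smul_eq_mul, ENNReal.ofReal_one, one_mul]
    calc k⁻¹ * ∫⁻ x, ‖Pop θ h s ((arcBox θ h a l).indicator 1) x‖ₑ ^ 2 ∂w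
        ≤ k⁻¹ * (k * s (arcBox θ h a l)) := by
          gcongr
          exact hT a l hl hl1
      _ = s (arcBox θ h a l) := by rw [← mul_assoc, hkk, one_mul]
  have t2 : Testing θ h (k⁻¹ • w) s 1 := by
    intro a l hl hl1
    have e : ∀ x, ‖Pop θ h (k⁻¹ • w) ((arcBox θ h a l).indicator 1) x‖ₑ ^ 2 =
        (k⁻¹) ^ 2 * ‖Pop θ h w ((arcBox θ h a l).indicator 1) x‖ₑ ^ 2 := by
      intro x
      unfold Pop
      rw [integral_smul_measure, enorm_smul, mul_pow]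
      congr 2
      rw [Real.enorm_eq_ofReal ENNReal.toReal_nonneg, ENNReal.ofReal_toReal hki]
    simp_rw [e]
    rw [lintegral_const_mul' _ _ (ENNReal.pow_ne_top hki), Measure.smul_apply, smul_eq_mul,
      ENNReal.ofReal_one, one_mul]
    calc (k⁻¹) ^ 2 * ∫⁻ x, ‖Pop θ h w ((arcBox θ h a l).indicator 1) x‖ₑ ^ 2 ∂s
        ≤ (k⁻¹) ^ 2 * (k * w (arcBox θ h a l)) := by
          gcongr
          exact hT' a l hl hl1
      _ = k⁻¹ * (k⁻¹ * k) * w (arcBox θ h a l) := by ring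
      _ = k⁻¹ * w (arcBox θ h a l) := by rw [hkk, mul_one]
  have h1 := H s (k⁻¹ • w) inferInstance hfinw t1 t2 f hf hf2
  rw [lintegral_smul_measure, smul_eq_mul] at h1
  calc ∫⁻ x, ‖Pop θ h s f x‖ₑ ^ 2 ∂w = k * (k⁻¹ * ∫⁻ x, ‖Pop θ h s f x‖ₑ ^ 2 ∂w) := by
        rw [← mul_assoc, mul_comm k, hkk, one_mul]
    _ ≤ k * (ENNReal.ofReal κ * ∫⁻ x, ‖f x‖ₑ ^ 2 ∂s) := by gcongr
    _ = ENNReal.ofReal (κ * c) * ∫⁻ x, ‖f x‖ₑ ^ 2 ∂s := by
        rw [ENNReal.ofReal_mul hκ, ← hk]; ring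

/-- complex valued functions -/
theorem cplx {s w : Measure ℂ} [IsFiniteMeasure s] {C : ℝ} (hC : 0 ≤ C)
    (hmain : ∀ f : ℂ → ℝ, Measurable f → ∫⁻ x, ‖f x‖ₑ ^ 2 ∂s < ∞ →
      ∫⁻ x, ‖Pop th ht s f x‖ₑ ^ 2 ∂w ≤ ENNReal.ofReal C * ∫⁻ x, ‖f x‖ₑ ^ 2 ∂s)
    {f' : ℂ → ℂ} (hf'm : Measurable f') (hfin : ∫⁻ x, ‖f' x‖ₑ ^ 2 ∂s < ∞) :
    Integrable f' s ∧ ∫⁻ z, ‖∫ ζ, K th ht z ζ * f' ζ ∂s‖ₑ ^ 2 ∂w ≤
      ENNReal.ofReal (2 * C) * ∫⁻ x, ‖f' x‖ₑ ^ 2 ∂s := by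
  set f1 : ℂ → ℝ := fun z => (f' z).re with hf1
  set f2 : ℂ → ℝ := fun z => (f' z).im with hf2'
  have hf1m : Measurable f1 := Complex.measurable_re.comp hf'm
  have hf2m : Measurable f2 := Complex.measurable_im.comp hf'm
  have hsum : ∫⁻ x, ‖f' x‖ₑ ^ 2 ∂s = ∫⁻ x, ‖f1 x‖ₑ ^ 2 ∂s + ∫⁻ x, ‖f2 x‖ₑ ^ 2 ∂s := by
    rw [← lintegral_add_left (hf1m.enorm.pow_const 2)]
    exact lintegral_congr fun x => enorm_sq_complex _
  have h1fin : ∫⁻ x, ‖f1 x‖ₑ ^ 2 ∂s < ∞ := lt_of_le_of_lt (hsum ▸ le_self_add) hfin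
  have h2fin : ∫⁻ x, ‖f2 x‖ₑ ^ 2 ∂s < ∞ := lt_of_le_of_lt (hsum ▸ le_add_self) hfin
  have i1 : Integrable f1 s := integrable_of_sq _ hf1m h1fin
  have i2 : Integrable f2 s := integrable_of_sq _ hf2m h2fin
  have i' : Integrable f' s := by
    have := i1.ofReal (𝕜 := ℂ).add (i2.ofReal (𝕜 := ℂ).mul_const Complex.I)
    refine this.congr (Eventually.of_forall fun z => ?_)
    exact Complex.re_add_im (f' z)
  refine ⟨i', ?_⟩
  have hP : ∀ z : ℂ, ∫ ζ, K th ht z ζ * f' ζ ∂s =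
      Pop th ht s f1 z + Complex.I * Pop th ht s f2 z := by
    intro z
    unfold Pop
    rw [← integral_const_mul, ← integral_add (K_mul_integrable geoD _ i1 z)
      ((K_mul_integrable geoD _ i2 z).const_mul _)]
    refine integral_congr_ae (Eventually.of_forall fun ζ => ?_)
    simp only [hf1, hf2']
    have := Complex.re_add_im (f' ζ)
    linear_combination (-(K th ht z ζ)) * this
  calc ∫⁻ z, ‖∫ ζ, K th ht z ζ * f' ζ ∂s‖ₑ ^ 2 ∂w
      ≤ ∫⁻ z, 2 * (‖Pop th ht s f1 z‖ₑ ^ 2 + ‖Pop th ht s f2 z‖ₑ ^ 2) ∂w := by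
        refine lintegral_mono fun z => ?_
        rw [hP z]
        exact enorm_add_sq_le _ _
    _ = 2 * (∫⁻ z, ‖Pop th ht s f1 z‖ₑ ^ 2 ∂w + ∫⁻ z, ‖Pop th ht s f2 z‖ₑ ^ 2 ∂w) := by
        rw [lintegral_const_mul' _ _ (by norm_num), lintegral_add_left]
        exact (Pop_meas geoD _ hf1m).measurable.enorm.pow_const 2
    _ ≤ 2 * (ENNReal.ofReal C * ∫⁻ x, ‖f1 x‖ₑ ^ 2 ∂s +
          ENNReal.ofReal C * ∫⁻ x, ‖f2 x‖ₑ ^ 2 ∂s) := by
        gcongr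
        · exact hmain f1 hf1m h1fin
        · exact hmain f2 hf2m h2fin
    _ = ENNReal.ofReal (2 * C) * ∫⁻ x, ‖f' x‖ₑ ^ 2 ∂s := by
        rw [hsum, ← mul_add, ENNReal.ofReal_mul (by norm_num)]
        simp [mul_assoc]

/-! ### Weights -/

/-- Condition (B) with the constant `C`. -/
def CondBC (w σ : ℂ → ℝ) (C : ℝ) : Prop :=
  ∀ f : ℂ → ℂ, AEStronglyMeasurable f areaD → normL2 σ f < ∞ →
    BergDefined (fun ζ => (σ ζ : ℂ) * f ζ) ∧
    normL2 w (bergP (fun ζ => (σ ζ : ℂ) * f ζ)) ≤ ENNReal.ofReal C * normL2 σ f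

/-- Condition (T) with the constant `C0`. -/
def CondTC (w σ : ℂ → ℝ) (C0 : ℝ) : Prop :=
  ∀ (I : Set ℂ) (l : ℝ), IsArc I l →
    (BergDefined ((carlesonBox I l).indicator (fun ζ => (σ ζ : ℂ))) ∧
      normL2 w (bergP ((carlesonBox I l).indicator (fun ζ => (σ ζ : ℂ)))) ≤
        ENNReal.ofReal C0 * mass σ (carlesonBox I l) ^ (1 / 2 : ℝ)) ∧
    (BergDefined ((carlesonBox I l).indicator (fun ζ => (w ζ : ℂ))) ∧
      normL2 σ (bergP ((carlesonBox I l).indicator (fun ζ => (w ζ : ℂ)))) ≤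
        ENNReal.ofReal C0 * mass w (carlesonBox I l) ^ (1 / 2 : ℝ))

theorem BC_of_TC {κ : ℝ} (hκ : 0 ≤ κ) (H : ∀ (s w : Measure ℂ) (_ : IsFiniteMeasure s)
    (_ : IsFiniteMeasure w) (c : ℝ), 0 < c → Testing th ht s w c → Testing th ht w s c →
    ∀ f : ℂ → ℝ, Measurable f → ∫⁻ x, ‖f x‖ₑ ^ 2 ∂s < ∞ →
    ∫⁻ x, ‖Pop th ht s f x‖ₑ ^ 2 ∂w ≤ ENNReal.ofReal (κ * c) * ∫⁻ x, ‖f x‖ₑ ^ 2 ∂s)
    {w σ : ℂ → ℝ} (hw : IsWeight w) (hσ : IsWeight σ) {C0 : ℝ} (hC0 : 0 < C0)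
    (hT : CondTC w σ C0) : CondBC w σ ((2 * κ + 1) * C0) := by
  have harc1 := isArc_harc 0 1 one_pos le_rfl
  have iσ : Integrable σ areaD := weight_integrable (hT _ _ harc1).1.1
  have iw : Integrable w areaD := weight_integrable (hT _ _ harc1).2.1
  have f1 := finite_sm iσ
  have f2 := finite_sm iw
  have t1 : Testing th ht (sm σ) (sm w) (C0 ^ 2) :=
    testing_of hσ hw _ hC0.le (fun I l hI => (hT I l hI).1.2)
  have t2 : Testing th ht (sm w) (sm σ) (C0 ^ 2) :=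
    testing_of hw hσ _ hC0.le (fun I l hI => (hT I l hI).2.2)
  have hmain := H (sm σ) (sm w) f1 f2 (C0 ^ 2) (by positivity) t1 t2
  intro f hf hf2
  set f' : ℂ → ℂ := hf.mk f with hf'
  have hf'm : Measurable f' := hf.stronglyMeasurable_mk.measurable
  have hff' : ∀ᵐ z ∂areaD, f z = f' z := hf.ae_eq_mk
  have hnorm : normL2 σ f = (∫⁻ x, ‖f' x‖ₑ ^ 2 ∂(sm σ)) ^ (1 / 2 : ℝ) := by
    rw [normL2_eq hσ]
    congr 1
    refine lintegral_congr_ae ?_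
    filter_upwards [(sm_ac σ).ae_le hff'] with z hz
    rw [hz]
  have hfin : ∫⁻ x, ‖f' x‖ₑ ^ 2 ∂(sm σ) < ∞ := by
    rw [hnorm] at hf2
    by_contra h
    rw [not_lt, top_le_iff] at h
    rw [h, ENNReal.top_rpow_of_pos (by norm_num)] at hf2
    exact lt_irrefl _ hf2
  obtain ⟨i', hle⟩ := cplx (by positivity) hmain hf'm hfin
  have hcongr : ∀ᵐ z ∂areaD, (σ z : ℂ) * f' z = (σ z : ℂ) * f z := by
    filter_upwards [hff'] with z hz
    rw [hz]
  constructor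
  · exact bergDefined_congr hcongr (bergDefined_of_integrable (sm_integrable_iff hσ f' i'))
  · rw [normL2_eq hw, hnorm]
    have e : ∫⁻ z, ‖bergP (fun ζ => (σ ζ : ℂ) * f ζ) z‖ₑ ^ 2 ∂(sm w) =
        ∫⁻ z, ‖∫ ζ, K th ht z ζ * f' ζ ∂(sm σ)‖ₑ ^ 2 ∂(sm w) := by
      refine lintegral_congr_ae ?_
      filter_upwards [sm_ball w] with z hz
      rw [← bergP_congr hcongr z, ← PopC_disc hσ f' hz]
    rw [e]
    refine half_of_sq (by positivity) (hle.trans ?_)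
    gcongr
    have : 0 ≤ C0 ^ 2 := by positivity
    nlinarith

theorem TC_of_BC {w σ : ℂ → ℝ} (hw : IsWeight w) (hσ : IsWeight σ) {C : ℝ} (hC : 0 ≤ C)
    (hB : CondBC w σ C) : CondTC w σ (2 * C) := by
  have hBB : BndB w σ C := fun f hf hf2 => (hB f hf hf2).2
  obtain ⟨iσ, iw⟩ := int_of_B hw hσ C hC hBB
  have := finite_sm iσ
  have := finite_sm iw
  have hreal : ∀ f : ℂ → ℝ, Measurable f → ∫⁻ x, ‖f x‖ₑ ^ 2 ∂(sm σ) < ∞ →
      ∫⁻ x, ‖Pop th ht (sm σ) f x‖ₑ ^ 2 ∂(sm w) ≤ ENNReal.ofReal (C ^ 2) * ∫⁻ x, ‖f x‖ₑ ^ 2 ∂(sm σ) := by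
    intro f hf hf2
    have hn : normL2 σ (fun z => (f z : ℂ)) = (∫⁻ x, ‖f x‖ₑ ^ 2 ∂(sm σ)) ^ (1 / 2 : ℝ) := by
      rw [normL2_eq hσ]
      congr 1
      refine lintegral_congr fun x => ?_
      rw [← ofReal_norm, Complex.norm_real, ofReal_norm]
    have h1 := hBB (fun z => (f z : ℂ)) (Complex.measurable_ofReal.comp hf).aestronglyMeasurable
      (by rw [hn]; exact half_lt_top hf2)
    rw [hn, normL2_eq hw] at h1
    have h2 := sq_of_half hC h1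
    refine le_trans (le_of_eq (lintegral_congr_ae ?_)) h2
    filter_upwards [sm_ball w] with z hz
    rw [Pop_disc hσ f hz]
  intro I l hI
  obtain ⟨hl, hl1, a, ha1, ha2⟩ := hI
  have hbox := box_ae hl hl1 ha1 ha2
  have hdef : ∀ v : ℂ → ℝ, Integrable v areaD →
      BergDefined ((carlesonBox I l).indicator (fun ζ => (v ζ : ℂ))) := by
    intro v hv
    refine bergDefined_of_integrable ?_
    have h1 : Integrable ((arcBox th ht a l).indicator (fun ζ => (v ζ : ℂ))) areaD :=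
      (hv.ofReal (𝕜 := ℂ)).indicator (meas_arcBox a l)
    refine h1.congr ?_
    filter_upwards [hbox] with ζ hζ
    by_cases h : ζ ∈ arcBox th ht a l
    · rw [indicator_of_mem h, indicator_of_mem (hζ.mpr h)]
    · rw [indicator_of_notMem h, indicator_of_notMem (fun h2 => h (hζ.mp h2))]
  refine ⟨⟨hdef σ iσ, ?_⟩, ⟨hdef w iw, ?_⟩⟩
  · obtain ⟨e1, e2⟩ := test_conv hσ hw hbox
    rw [e1, e2]
    refine half_of_sq (by linarith) ?_
    have hind := lint_ind (sm σ) (arcBox th ht a l) (meas_arcBox a l)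
    have h1 := hreal ((arcBox th ht a l).indicator 1) (measurable_one.indicator (meas_arcBox a l))
      (by rw [hind]; exact measure_lt_top _ _)
    rw [hind] at h1
    refine h1.trans ?_
    gcongr
    nlinarith
  · obtain ⟨e1, e2⟩ := test_conv hw hσ hbox
    rw [e1, e2]
    refine half_of_sq (by linarith) ?_
    have hind := lint_ind (sm w) (arcBox th ht a l) (meas_arcBox a l)
    have h1 := dual_bound th ht geoD (sm σ) (sm w) (C ^ 2) (sq_nonneg _) hreal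
      ((arcBox th ht a l).indicator 1) (measurable_one.indicator (meas_arcBox a l))
      (by rw [hind]; exact measure_lt_top _ _)
    rw [hind] at h1
    refine h1.trans ?_
    gcongr
    nlinarith

/-! ### Measures -/

/-- The Bergman operator `z ↦ ∫ f(ζ) / (1 - z conj ζ)^2 dμ(ζ)` of the measure `f μ`. -/
def PM (μ : Measure ℂ) (f : ℂ → ℂ) (z : ℂ) : ℂ :=
  ∫ ζ, f ζ / (1 - z * (starRingEnd ℂ) ζ) ^ 2 ∂μ

/-- The norm of `L^2(μ)`. -/
def nrm (μ : Measure ℂ) (F : ℂ → ℂ) : ℝ≥0∞ := (∫⁻ z, ‖F z‖ₑ ^ 2 ∂μ) ^ (1 / 2 : ℝ)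

/-- The Carleson box over the half open arc `{e^{2 π i t} : a ≤ t < a + l}` (it contains `0` exactly
when `l ≥ 1`). -/
def box (a l : ℝ) : Set ℂ :=
  {z | ‖z‖ < 1 ∧ 1 - ‖z‖ ≤ l ∧
    ∃ t : ℝ, a ≤ t ∧ t < a + l ∧ z = (‖z‖ : ℂ) * Complex.exp (2 * Real.pi * t * Complex.I)}

/-- `‖P(f σ)‖_{L²(w)} ≤ C ‖f‖_{L²(σ)}` for all `f ∈ L²(σ)`. -/
def BndM (σ w : Measure ℂ) (C : ℝ) : Prop :=
  ∀ f : ℂ → ℂ, AEStronglyMeasurable f σ → nrm σ f < ∞ →
    nrm w (PM σ f) ≤ ENNReal.ofReal C * nrm σ f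

/-- `‖P(1_Q σ)‖_{L²(w)} ≤ C σ(Q)^{1/2}` for all Carleson boxes `Q`. -/
def TestM (σ w : Measure ℂ) (C : ℝ) : Prop :=
  ∀ a l : ℝ, 0 < l → l ≤ 1 →
    nrm w (PM σ ((box a l).indicator 1)) ≤ ENNReal.ofReal C * σ (box a l) ^ (1 / 2 : ℝ)

theorem mem_box_iff {a l : ℝ} (hl : 0 < l) (hl1 : l ≤ 1) {z : ℂ} (hz : ‖z‖ < 1) :
    z ∈ box a l ↔ z ∈ arcBox th ht a l := by
  have hht : ht z = 1 - ‖z‖ := by simp [ht, hz]
  have hzt := norm_mul_exp_th z
  unfold box arcBox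
  simp only [mem_ofPred_eq, hz, true_and, hht]
  rw [and_comm]
  refine and_congr_left fun hzl => ?_
  by_cases hz0 : z = 0
  · have hl' : l = 1 := by
      rw [hz0, norm_zero, sub_zero] at hzl
      exact le_antisymm hl1 hzl
    constructor
    · intro _
      rw [hl']
      exact Int.fract_lt_one _
    · intro _
      exact ⟨a, le_refl _, by linarith, by rw [hz0]; simp⟩
  · have hn : (‖z‖ : ℂ) ≠ 0 := by simpa using hz0
    constructor
    · rintro ⟨t, h1, h2, h3⟩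
      have h4 : Complex.exp (2 * Real.pi * (th z : ℝ) * Complex.I) =
          Complex.exp (2 * Real.pi * t * Complex.I) := by
        apply mul_left_cancel₀ hn
        rw [hzt, ← h3]
      obtain ⟨n, hn'⟩ := (exp_eq_iff _ _).mp h4
      have h5 : Int.fract (th z - a) = Int.fract (t - a) := by
        rw [hn', show t + (n : ℝ) - a = (t - a) + n by ring, Int.fract_add_intCast]
      rw [h5, Int.fract_eq_self.mpr ⟨by linarith, by linarith⟩]
      linarith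
    · intro h
      refine ⟨a + Int.fract (th z - a), by linarith [Int.fract_nonneg (th z - a)], by linarith, ?_⟩
      have e1 : Complex.exp (2 * Real.pi * (th z : ℝ) * Complex.I) =
          Complex.exp (2 * Real.pi * ((a + Int.fract (th z - a) : ℝ)) * Complex.I) := by
        rw [exp_eq_iff]
        refine ⟨⌊th z - a⌋, ?_⟩
        have := Int.fract_add_floor (th z - a)
        linarith
      rw [← e1]
      exact hzt.symm

theorem ae_disc {μ : Measure ℂ} (h : μ (Metric.ball (0 : ℂ) 1)ᶜ = 0) : ∀ᵐ z ∂μ, ‖z‖ < 1 := by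
  rw [ae_iff]
  refine measure_mono_null (fun z hz => ?_) h
  simpa using hz

theorem PM_eq {σ : Measure ℂ} (hσ : σ (Metric.ball (0 : ℂ) 1)ᶜ = 0) (f : ℂ → ℂ) {z : ℂ}
    (hz : ‖z‖ < 1) : PM σ f z = ∫ ζ, K th ht z ζ * f ζ ∂σ := by
  unfold PM
  refine integral_congr_ae ?_
  filter_upwards [ae_disc hσ] with ζ hζ
  rw [K_disc hz hζ, div_eq_mul_inv, mul_comm]

theorem box_meas {σ : Measure ℂ} (hσ : σ (Metric.ball (0 : ℂ) 1)ᶜ = 0) {a l : ℝ} (hl : 0 < l)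
    (hl1 : l ≤ 1) : σ (box a l) = σ (arcBox th ht a l) := by
  refine measure_congr ?_
  filter_upwards [ae_disc hσ] with z hz
  exact propext (mem_box_iff hl hl1 hz)

theorem test_conv' {σ w : Measure ℂ} (hσ : σ (Metric.ball (0 : ℂ) 1)ᶜ = 0)
    (hw : w (Metric.ball (0 : ℂ) 1)ᶜ = 0) {a l : ℝ} (hl : 0 < l) (hl1 : l ≤ 1) :
    nrm w (PM σ ((box a l).indicator 1)) =
      (∫⁻ x, ‖Pop th ht σ ((arcBox th ht a l).indicator 1) x‖ₑ ^ 2 ∂w) ^ (1 / 2 : ℝ) := by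
  unfold nrm
  congr 1
  refine lintegral_congr_ae ?_
  filter_upwards [ae_disc hw] with z hz
  rw [PM_eq hσ _ hz]
  unfold Pop
  congr 2
  refine integral_congr_ae ?_
  filter_upwards [ae_disc hσ] with ζ hζ
  by_cases h : ζ ∈ arcBox th ht a l
  · rw [indicator_of_mem h, indicator_of_mem ((mem_box_iff hl hl1 hζ).2 h)]
    simp
  · rw [indicator_of_notMem h, indicator_of_notMem (fun h2 => h ((mem_box_iff hl hl1 hζ).1 h2))]
    simp

theorem BM_of_TM {κ : ℝ} (hκ : 0 ≤ κ) (H : ∀ (s w : Measure ℂ) (_ : IsFiniteMeasure s)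
    (_ : IsFiniteMeasure w) (c : ℝ), 0 < c → Testing th ht s w c → Testing th ht w s c →
    ∀ f : ℂ → ℝ, Measurable f → ∫⁻ x, ‖f x‖ₑ ^ 2 ∂s < ∞ →
    ∫⁻ x, ‖Pop th ht s f x‖ₑ ^ 2 ∂w ≤ ENNReal.ofReal (κ * c) * ∫⁻ x, ‖f x‖ₑ ^ 2 ∂s)
    {σ w : Measure ℂ} [IsFiniteMeasure σ] [IsFiniteMeasure w]
    (hσ : σ (Metric.ball (0 : ℂ) 1)ᶜ = 0) (hw : w (Metric.ball (0 : ℂ) 1)ᶜ = 0) {C : ℝ}
    (hC : 0 < C) (h1 : TestM σ w C) (h2 : TestM w σ C) : BndM σ w ((2 * κ + 1) * C) := by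
  have t1 : Testing th ht σ w (C ^ 2) := by
    intro a l hl hl1
    have := h1 a l hl hl1
    rw [test_conv' hσ hw hl hl1, box_meas hσ hl hl1] at this
    exact sq_of_half hC.le this
  have t2 : Testing th ht w σ (C ^ 2) := by
    intro a l hl hl1
    have := h2 a l hl hl1
    rw [test_conv' hw hσ hl hl1, box_meas hw hl hl1] at this
    exact sq_of_half hC.le this
  have hmain := H σ w inferInstance inferInstance (C ^ 2) (by positivity) t1 t2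
  intro f hf hf2
  set f' : ℂ → ℂ := hf.mk f with hf'
  have hf'm : Measurable f' := hf.stronglyMeasurable_mk.measurable
  have hff' : ∀ᵐ z ∂σ, f z = f' z := hf.ae_eq_mk
  have hnorm : nrm σ f = (∫⁻ x, ‖f' x‖ₑ ^ 2 ∂σ) ^ (1 / 2 : ℝ) := by
    unfold nrm
    congr 1
    refine lintegral_congr_ae ?_
    filter_upwards [hff'] with z hz
    rw [hz]
  have hfin : ∫⁻ x, ‖f' x‖ₑ ^ 2 ∂σ < ∞ := by
    rw [hnorm] at hf2
    by_contra h
    rw [not_lt, top_le_iff] at h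
    rw [h, ENNReal.top_rpow_of_pos (by norm_num)] at hf2
    exact lt_irrefl _ hf2
  obtain ⟨-, hle⟩ := cplx (by positivity) hmain hf'm hfin
  rw [hnorm]
  unfold nrm
  have e : ∫⁻ z, ‖PM σ f z‖ₑ ^ 2 ∂w = ∫⁻ z, ‖∫ ζ, K th ht z ζ * f' ζ ∂σ‖ₑ ^ 2 ∂w := by
    refine lintegral_congr_ae ?_
    filter_upwards [ae_disc hw] with z hz
    rw [PM_eq hσ f hz]
    congr 2
    refine integral_congr_ae ?_
    filter_upwards [hff'] with ζ hζ
    rw [hζ]
  rw [e]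
  refine half_of_sq (by positivity) (hle.trans ?_)
  gcongr
  have : 0 ≤ C ^ 2 := by positivity
  nlinarith

theorem TM_of_BM {σ w : Measure ℂ} [IsFiniteMeasure σ] [IsFiniteMeasure w]
    (hσ : σ (Metric.ball (0 : ℂ) 1)ᶜ = 0) (hw : w (Metric.ball (0 : ℂ) 1)ᶜ = 0) {C : ℝ}
    (hC : 0 ≤ C) (hB : BndM σ w C) : TestM σ w C ∧ TestM w σ (2 * C) := by
  have hreal : ∀ f : ℂ → ℝ, Measurable f → ∫⁻ x, ‖f x‖ₑ ^ 2 ∂σ < ∞ →
      ∫⁻ x, ‖Pop th ht σ f x‖ₑ ^ 2 ∂w ≤ ENNReal.ofReal (C ^ 2) * ∫⁻ x, ‖f x‖ₑ ^ 2 ∂σ := by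
    intro f hf hf2
    have hn : nrm σ (fun z => (f z : ℂ)) = (∫⁻ x, ‖f x‖ₑ ^ 2 ∂σ) ^ (1 / 2 : ℝ) := by
      unfold nrm
      congr 1
      refine lintegral_congr fun x => ?_
      rw [← ofReal_norm, Complex.norm_real, ofReal_norm]
    have h1 := hB (fun z => (f z : ℂ)) (Complex.measurable_ofReal.comp hf).aestronglyMeasurable
      (by rw [hn]; exact half_lt_top hf2)
    rw [hn] at h1
    unfold nrm at h1
    have h2 := sq_of_half hC h1
    refine le_trans (le_of_eq (lintegral_congr_ae ?_)) h2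
    filter_upwards [ae_disc hw] with z hz
    rw [PM_eq hσ _ hz]
    rfl
  constructor
  · intro a l hl hl1
    rw [test_conv' hσ hw hl hl1, box_meas hσ hl hl1]
    refine half_of_sq hC ?_
    have hind := lint_ind σ (arcBox th ht a l) (meas_arcBox a l)
    have h1 := hreal ((arcBox th ht a l).indicator 1) (measurable_one.indicator (meas_arcBox a l))
      (by rw [hind]; exact measure_lt_top _ _)
    rw [hind] at h1
    exact h1
  · intro a l hl hl1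
    rw [test_conv' hw hσ hl hl1, box_meas hw hl hl1]
    refine half_of_sq (by linarith) ?_
    have hind := lint_ind w (arcBox th ht a l) (meas_arcBox a l)
    have h1 := dual_bound th ht geoD σ w (C ^ 2) (sq_nonneg _) hreal
      ((arcBox th ht a l).indicator 1) (measurable_one.indicator (meas_arcBox a l))
      (by rw [hind]; exact measure_lt_top _ _)
    rw [hind] at h1
    refine h1.trans ?_
    gcongr
    nlinarith

end

end Pool.Agent.Y308.BQ
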