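import Pool.Agent.Y308.BQ.Top

/-!
# Uniform versions of the estimates of `Pool.Agent.Helper807.BT.Layer` (helper308)

The proofs are those of the starting file `Pool/Agent/Helper807/BT/Layer.lean`, with the measures
quantified after the constants.
-/

set_option autoImplicit false

open MeasureTheory Set
open scoped ENNReal

namespace Pool.Agent.Y308.BQ

noncomputable section

open Pool.Agent.Helper807.BT

variable {X : Type*} [MeasurableSpace X]

theorem layerU {θ h : X → ℝ} (geo : Geo θ h) {C0 : ℝ} (hC : 0 ≤ C0)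
    (q Mn : ℕ) (hq : 1 ≤ q) (hMn : 1 ≤ Mn) (c0 P c1 : ℝ) (hP : 1 ≤ P) (hc1 : 0 < c1)
    (hqP : P ≤ 200 * q)
    (hps : ∀ h0 : ℝ, 0 < h0 → h0 ≤ c0 → ∀ δ : ℝ, 0 < δ → δ ≤ h0 / P →
      ∀ u v v' : ℝ × ℝ, h0 / 2 ≤ u.2 → u.2 ≤ h0 → 0 < v.2 → v.2 ≤ ((Mn : ℝ) + 1) * h0 →
      v'.2 = v.2 → nd (u.1 - v.1) ≤ ((Mn : ℝ) + 1) * h0 → nd (u.1 - v'.1) ≤ ((Mn : ℝ) + 1) * h0 →
      ∀ β : ℝ, h0 / 200 ≤ |β| → |β| ≤ ((Mn : ℝ) + 1) * h0 → v'.1 = v.1 + β →
      ∃ ω : ℂ, ‖ω‖ = 1 ∧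
        (∀ y : ℝ × ℝ, 0 < y.2 → y.2 ≤ ((Mn : ℝ) + 1) * h0 → |y.2 - v.2| ≤ δ →
          nd (y.1 - v.1) ≤ δ → c1 / h0 ^ 2 ≤ (ω * kap u y).re) ∧
        (∀ y : ℝ × ℝ, 0 < y.2 → y.2 ≤ ((Mn : ℝ) + 1) * h0 → |y.2 - v.2| ≤ δ →
          nd (y.1 - v'.1) ≤ δ → (ω * kap u y).re ≤ 0)) (N : ℕ) (hN : N = 200 * q * Mn) :
    ∀ n : ℕ, q ≤ n → n ≤ N → ∃ Cn : ℝ, 0 ≤ Cn ∧ ∀ (s w : Measure X) (_ : IsFiniteMeasure s)
      (_ : IsFiniteMeasure w), Testing θ h s w C0 → ∀ θ0 h0 : ℝ, 0 < h0 → h0 ≤ c0 →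
      2 * Mn * h0 ≤ 1 → ∀ k < 2 * N,
      w.real (c7109 θ h θ0 h0) *
        s.real (D7109 θ h (θ0 - N * (h0 / (200 * q))) (h0 / (200 * q)) k n) ^ 2 ≤
        Cn * h0 ^ 4 * s.real (S7109 θ h (θ0 - N * (h0 / (200 * q))) (h0 / (200 * q)) N) := by
  have hq0 : (0 : ℝ) < q := by exact_mod_cast hq
  have hMn0 : (1 : ℝ) ≤ Mn := by exact_mod_cast hMn
  have hqN : q ≤ N := by
    rw [hN]; nlinarith [Nat.mul_le_mul hq hMn, Nat.zero_le (q * Mn)]
  intro n hn
  induction n, hn using Nat.le_induction with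
  | base =>
    intro _
    set R : ℝ := 2 + 7 * (1 + Mn) with hR
    have hR0 : 0 < R := by rw [hR]; linarith
    refine ⟨4 * R ^ 4 * C0, by positivity, ?_⟩
    intro s w _ _ hT θ0 h0 hh0 hhc hhM k hk
    set δ := h0 / (200 * q) with hδdef
    have hδ : 0 < δ := by positivity
    have hNδ : (N : ℝ) * δ = Mn * h0 := by
      rw [hN, hδdef]; push_cast; field_simp
    have hqδ : (q : ℝ) * δ = h0 / 200 := by
      rw [hδdef]; field_simp
    have h2N : ((2 * N : ℕ) : ℝ) * δ ≤ 1 := by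
      push_cast; nlinarith
    have hh1 : h0 ≤ 1 := by nlinarith
    obtain ⟨k', hk1, hk2, hk3⟩ : ∃ k', k' ≤ k ∧ k < k' + q ∧ k' + q ≤ 2 * N := by
      by_cases h : k + q ≤ 2 * N
      · exact ⟨k, le_rfl, by omega, h⟩
      · exact ⟨k + 1 - q, by omega, by omega, by omega⟩
    have hle : ((k' + q : ℕ) : ℝ) * δ ≤ 1 := by
      refine le_trans ?_ h2N
      apply mul_le_mul_of_nonneg_right _ hδ.le
      exact_mod_cast hk3
    have B := base_7109 geo s w hC hT (c7109 θ h θ0 h0) (mc_7109 geo θ0 h0) hh0 hh1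
      (fun x hx => hx.2.1) (θ0 - N * δ + k' * δ) R hR0 (by
        intro x hx
        have h1 := nd_c_7109 (θ := θ) (N := N) x hx hδ k' (by omega)
        have h2 := den_le (u := (θ x, h x)) (v := (θ0 - N * δ + k' * δ, h0 / 200))
          (geo.h0 x).le (geo.h1 x) (by show 0 ≤ h0 / 200; positivity)
          (by show h0 / 200 ≤ 1; linarith)
        refine h2.trans ?_
        show h x + h0 / 200 + 2 * Real.pi * nd (θ x - (θ0 - N * δ + k' * δ)) ≤ R * h0
        have h3 : h x ≤ h0 := hx.2.2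
        have hpi : Real.pi < 3.15 := Real.pi_lt_d2
        have hpi0 := Real.pi_pos
        have hnd0 : 0 ≤ nd (θ x - (θ0 - N * δ + k' * δ)) := abs_nonneg _
        rw [hNδ] at h1
        have h4 : 2 * Real.pi * nd (θ x - (θ0 - N * δ + k' * δ)) ≤ 7 * ((1 + Mn) * h0) := by
          apply mul_le_mul (by linarith) _ hnd0 (by norm_num)
          rw [← hNδ] at h1
          linarith
        rw [hR]
        nlinarith)
    have sub1 : D7109 θ h (θ0 - N * δ) δ k q ⊆ arcBox θ h (θ0 - N * δ + k' * δ) (h0 / 200) := by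
      rintro y ⟨hy1, hy2⟩
      rw [← hqδ]
      rw [mem_box_7109 geo hδ k' q hle y]
      exact ⟨by omega, by omega, hy2⟩
    have sub2 : D7109 θ h (θ0 - N * δ) δ k q ⊆ S7109 θ h (θ0 - N * δ) δ N := by
      rintro y ⟨hy1, hy2⟩
      exact ⟨by omega, by omega⟩
    have m1 := measureReal_mono (μ := s) sub1
    have m2 := measureReal_mono (μ := s) sub2
    have hD0 : 0 ≤ s.real (D7109 θ h (θ0 - N * δ) δ k q) := measureReal_nonneg
    have hw0 : 0 ≤ w.real (c7109 θ h θ0 h0) := measureReal_nonneg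
    calc w.real (c7109 θ h θ0 h0) * s.real (D7109 θ h (θ0 - N * δ) δ k q) ^ 2
        = (w.real (c7109 θ h θ0 h0) * s.real (D7109 θ h (θ0 - N * δ) δ k q)) *
          s.real (D7109 θ h (θ0 - N * δ) δ k q) := by ring
      _ ≤ (w.real (c7109 θ h θ0 h0) *
          s.real (arcBox θ h (θ0 - N * δ + k' * δ) (h0 / 200))) *
          s.real (S7109 θ h (θ0 - N * δ) δ N) := by
          apply mul_le_mul _ m2 hD0 (by positivity)
          exact mul_le_mul_of_nonneg_left m1 hw0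
      _ ≤ (4 * R ^ 4 * C0 * h0 ^ 4) * s.real (S7109 θ h (θ0 - N * δ) δ N) :=
          mul_le_mul_of_nonneg_right B measureReal_nonneg
  | succ n hqn ih =>
    intro hnN
    obtain ⟨Cn, hCn, ihn⟩ := ih (by omega)
    refine ⟨2 * Cn + 2 * (6 * (4 * C0 + 32 * Cn) / c1 ^ 2), by positivity, ?_⟩
    intro s w _ _ hT θ0 h0 hh0 hhc hhM k hk
    have ih' := ihn s w inferInstance inferInstance hT θ0 h0 hh0 hhc hhM
    set δ := h0 / (200 * q) with hδdef
    have hδ : 0 < δ := by positivity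
    have hNδ : (N : ℝ) * δ = Mn * h0 := by
      rw [hN, hδdef]; push_cast; field_simp
    have hqδ : (q : ℝ) * δ = h0 / 200 := by
      rw [hδdef]; field_simp
    have h2N : ((2 * N : ℕ) : ℝ) * δ ≤ 1 := by
      push_cast; nlinarith
    have hle : ∀ r : ℕ, r ≤ 2 * N → (r : ℝ) * δ ≤ 1 := by
      intro r hr
      refine le_trans ?_ h2N
      apply mul_le_mul_of_nonneg_right _ hδ.le
      exact_mod_cast hr
    have hN1 : (N : ℝ) * δ ≤ 1 := hle N (by omega)
    have hδP : δ ≤ h0 / P := by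
      rw [hδdef]
      apply div_le_div_of_nonneg_left hh0.le (by linarith) hqP
    have hq200 : h0 / 200 ≤ ((n + 1 : ℕ) : ℝ) * δ := by
      rw [← hqδ]
      apply mul_le_mul_of_nonneg_right _ hδ.le
      exact_mod_cast (by omega : q ≤ n + 1)
    have hps' := hps h0 hh0 hhc δ hδ hδP
    set α := θ0 - N * δ with hα
    set T := S7109 θ h α δ N with hTdef
    set c := c7109 θ h θ0 h0 with hcdef
    have hw0 : 0 ≤ w.real c := measureReal_nonneg
    have hT0 : 0 ≤ s.real T := measureReal_nonneg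
    have pos : ∀ r : ℕ, 1 ≤ r → 0 < (r : ℝ) * δ := by
      intro r hr
      have : (0 : ℝ) < r := by exact_mod_cast hr
      positivity
    have hcell : c1 ^ 2 * (w.real c * s.real (C7109 θ h α δ k n) ^ 2) ≤
        6 * (4 * C0 + 32 * Cn) * h0 ^ 4 * s.real T := by
      rcases lt_or_ge k N with hkN | hkN
      · -- rightward
        have st := step_7109 geo s w hC hT c (mc_7109 geo θ0 h0) hh0 (fun x hx => hx.2.1) T
          (α + (k : ℕ) * δ) (α + (k + 1 : ℕ) * δ) (α + (k : ℕ) * δ) (α + (k + 1 : ℕ) * δ)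
          ((n + 1 : ℕ) * δ) ((n + 1 : ℕ) * δ) ((n : ℕ) * δ) ((n : ℕ) * δ)
          (pos _ (by omega)) (pos _ (by omega)) (pos _ (by omega)) (pos _ (by omega))
          (hle _ (by omega)) (hle _ (by omega)) (hle _ (by omega)) (hle _ (by omega))
          (box_sub_7109 geo hδ N _ _ h2N (by omega) (by omega))
          (box_sub_7109 geo hδ N _ _ h2N (by omega) (by omega))
          (box_sub_7109 geo hδ N _ _ h2N (by omega) (by omega))
          (box_sub_7109 geo hδ N _ _ h2N (by omega) (by omega))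
          (C7109 θ h α δ k n) (C7109 θ h α δ (k + n + 1) n)
          (D7109 θ h α δ (k + n + 1) n) (D7109 θ h α δ (k + n) n)
          (mC_7109 geo _ _ _ _) (mC_7109 geo _ _ _ _) (mD_7109 geo _ _ _ _)
          (mD_7109 geo _ _ _ _)
          (ident_right_7109 geo hδ k n (hle _ (by omega))) hc1
          (phase_7109 geo hh0 hδ hδP (by rw [hNδ]; linarith) hps' k (k + n + 1) n hk
            (by omega) (by omega) (Or.inl rfl) hq200)
        have i1 := ih' (k + n + 1) (by omega)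
        have i2 := ih' (k + n) (by omega)
        linarith
      · -- leftward
        obtain ⟨m, rfl⟩ : ∃ m, k = m + n + 1 := ⟨k - n - 1, by omega⟩
        have st := step_7109 geo s w hC hT c (mc_7109 geo θ0 h0) hh0 (fun x hx => hx.2.1) T
          (α + (m + 1 : ℕ) * δ) (α + (m : ℕ) * δ) (α + (m + 2 : ℕ) * δ) (α + (m + 1 : ℕ) * δ)
          ((n + 1 : ℕ) * δ) ((n + 1 : ℕ) * δ) ((n : ℕ) * δ) ((n : ℕ) * δ)
          (pos _ (by omega)) (pos _ (by omega)) (pos _ (by omega)) (pos _ (by omega))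
          (hle _ (by omega)) (hle _ (by omega)) (hle _ (by omega)) (hle _ (by omega))
          (box_sub_7109 geo hδ N _ _ h2N (by omega) (by omega))
          (box_sub_7109 geo hδ N _ _ h2N (by omega) (by omega))
          (box_sub_7109 geo hδ N _ _ h2N (by omega) (by omega))
          (box_sub_7109 geo hδ N _ _ h2N (by omega) (by omega))
          (C7109 θ h α δ (m + n + 1) n) (C7109 θ h α δ m n)
          (D7109 θ h α δ m n) (D7109 θ h α δ (m + 1) n)
          (mC_7109 geo _ _ _ _) (mC_7109 geo _ _ _ _) (mD_7109 geo _ _ _ _)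
          (mD_7109 geo _ _ _ _)
          (ident_left_7109 geo hδ m n (hle _ (by omega))) hc1
          (phase_7109 geo hh0 hδ hδP (by rw [hNδ]; linarith) hps' (m + n + 1) m n hk
            (by omega) (by omega) (Or.inr rfl) hq200)
        have i1 := ih' m (by omega)
        have i2 := ih' (m + 1) (by omega)
        linarith
    have hcell2 : w.real c * s.real (C7109 θ h α δ k n) ^ 2 ≤
        (6 * (4 * C0 + 32 * Cn) / c1 ^ 2) * h0 ^ 4 * s.real T := by
      have e : (6 * (4 * C0 + 32 * Cn) / c1 ^ 2) * h0 ^ 4 * s.real T =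
          (6 * (4 * C0 + 32 * Cn) * h0 ^ 4 * s.real T) / c1 ^ 2 := by ring
      rw [e, le_div_iff₀ (by positivity)]
      linarith
    have hD := ih' k hk
    have hs := D_succ_7109 (θ := θ) (h := h) α δ s k n
    have hsq : s.real (D7109 θ h α δ k (n + 1)) ^ 2 ≤
        2 * s.real (D7109 θ h α δ k n) ^ 2 + 2 * s.real (C7109 θ h α δ k n) ^ 2 := by
      have h1 := pow_le_pow_left₀ measureReal_nonneg hs 2
      nlinarith [sq_nonneg (s.real (D7109 θ h α δ k n) - s.real (C7109 θ h α δ k n))]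
    have hfin := mul_le_mul_of_nonneg_left hsq hw0
    calc w.real c * s.real (D7109 θ h α δ k (n + 1)) ^ 2
        ≤ w.real c * (2 * s.real (D7109 θ h α δ k n) ^ 2 +
          2 * s.real (C7109 θ h α δ k n) ^ 2) := hfin
      _ = 2 * (w.real c * s.real (D7109 θ h α δ k n) ^ 2) +
          2 * (w.real c * s.real (C7109 θ h α δ k n) ^ 2) := by ring
      _ ≤ 2 * (Cn * h0 ^ 4 * s.real T) +
          2 * ((6 * (4 * C0 + 32 * Cn) / c1 ^ 2) * h0 ^ 4 * s.real T) := by linarith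
      _ = _ := by ring

theorem HHsU (θ h : X → ℝ) (geo : Geo θ h) (C0 : ℝ) (hC : 0 ≤ C0) (M : ℝ) (hM : 1 ≤ M) :
    ∃ c0 : ℝ, 0 < c0 ∧ ∃ C : ℝ, 0 ≤ C ∧ ∀ (s w : Measure X) (_ : IsFiniteMeasure s)
      (_ : IsFiniteMeasure w), Testing θ h s w C0 → ∀ θ0 h0 : ℝ, 0 < h0 → h0 ≤ c0 →
      w.real (c7109 θ h θ0 h0) *
        s.real {y | nd (θ y - θ0) ≤ M * h0 ∧ h y ≤ M * h0} ≤ C * h0 ^ 4 := by
  obtain ⟨Mn, hMndef⟩ : ∃ Mn : ℕ, Mn = ⌊M⌋₊ + 1 := ⟨_, rfl⟩
  have hMn : 1 ≤ Mn := by omega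
  have hMMn : M < Mn := by
    rw [hMndef]; push_cast; exact Nat.lt_floor_add_one M
  have hMn1 : (1 : ℝ) ≤ Mn := by exact_mod_cast hMn
  obtain ⟨c0, hc0, P, hP, c1, hc1, hps⟩ := phase_sep ((Mn : ℝ) + 1) (by linarith)
  obtain ⟨q, hqdef⟩ : ∃ q : ℕ, q = ⌈P⌉₊ + 1 := ⟨_, rfl⟩
  have hq : 1 ≤ q := by omega
  have hPq : P ≤ 200 * q := by
    have h1 : P ≤ ⌈P⌉₊ := Nat.le_ceil P
    have h2 : ((⌈P⌉₊ : ℕ) : ℝ) ≤ q := by exact_mod_cast (by omega : ⌈P⌉₊ ≤ q)
    have h3 : (0 : ℝ) ≤ q := Nat.cast_nonneg q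
    linarith
  have hq0 : (0 : ℝ) < q := by exact_mod_cast hq
  obtain ⟨N, hN⟩ : ∃ N : ℕ, N = 200 * q * Mn := ⟨_, rfl⟩
  have hqN : q ≤ N := by
    rw [hN]; nlinarith [Nat.mul_le_mul hq hMn, Nat.zero_le (q * Mn)]
  obtain ⟨CN, hCN, hlay⟩ := layerU geo hC q Mn hq hMn c0 P c1 hP hc1 hPq hps N hN
    N hqN le_rfl
  have h2Mn : (0 : ℝ) < 1 / (2 * Mn) := by positivity
  refine ⟨min c0 (1 / (2 * Mn)), lt_min hc0 h2Mn, 4 * N ^ 2 * CN, by positivity, ?_⟩
  intro s w _ _ hT θ0 h0 hh0 hhc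
  have hhc0 : h0 ≤ c0 := hhc.trans (min_le_left _ _)
  have hhM : 2 * Mn * h0 ≤ 1 := by
    have := hhc.trans (min_le_right _ _)
    rw [le_div_iff₀ (by positivity)] at this
    linarith
  have L := hlay s w inferInstance inferInstance hT θ0 h0 hh0 hhc0 hhM
  set δ := h0 / (200 * q) with hδdef
  have hδ : 0 < δ := by positivity
  have hNδ : (N : ℝ) * δ = Mn * h0 := by
    rw [hN, hδdef]; push_cast; field_simp
  have h2N : ((2 * N : ℕ) : ℝ) * δ ≤ 1 := by
    push_cast; nlinarith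
  set α := θ0 - N * δ with hα
  set T := S7109 θ h α δ N with hTdef
  set c := c7109 θ h θ0 h0 with hcdef
  have hw0 : 0 ≤ w.real c := measureReal_nonneg
  have hT0 : 0 ≤ s.real T := measureReal_nonneg
  -- the set is contained in T
  have sub : {y | nd (θ y - θ0) ≤ M * h0 ∧ h y ≤ M * h0} ⊆ T := by
    rintro y ⟨hy1, hy2⟩
    constructor
    · rw [J_lt_7109 hδ]
      set r := θ y - θ0 - round (θ y - θ0) with hr
      have hr1 : |r| ≤ M * h0 := hy1
      have hr2 : |r| < N * δ := by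
        rw [hNδ]; exact lt_of_le_of_lt hr1 (mul_lt_mul_of_pos_right hMMn hh0)
      obtain ⟨r1, r2⟩ := abs_lt.1 hr2
      have e : θ y - α = (r + N * δ) + (round (θ y - θ0) : ℤ) := by
        rw [hr, hα]; ring
      have e2 : ((2 * N : ℕ) : ℝ) * δ = N * δ + N * δ := by push_cast; ring
      rw [e, Int.fract_add_intCast, Int.fract_eq_self.2 ⟨by linarith, by linarith⟩, e2]
      linarith
    · rw [H_lt_7109 hδ y (geo.h0 y), hNδ]
      exact hy2.trans (mul_le_mul_of_nonneg_right hMMn.le hh0.le)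
  have hmono := measureReal_mono (μ := s) sub
  have hcover : T ⊆ ⋃ k ∈ Finset.range (2 * N), D7109 θ h α δ k N := by
    rintro y ⟨hy1, hy2⟩
    simp only [Set.mem_iUnion, Finset.mem_range]
    exact ⟨J7109 θ α δ y, hy1, rfl, hy2⟩
  have hsum : s.real T ≤ ∑ k ∈ Finset.range (2 * N), s.real (D7109 θ h α δ k N) :=
    (measureReal_mono hcover (measure_ne_top s _)).trans (measureReal_biUnion_finset_le _ _)
  have hsq : s.real T ^ 2 ≤ (2 * N : ℕ) *
      ∑ k ∈ Finset.range (2 * N), s.real (D7109 θ h α δ k N) ^ 2 := by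
    have h1 := pow_le_pow_left₀ hT0 hsum 2
    have h2 := sq_sum_le_card_mul_sum_sq (s := Finset.range (2 * N))
      (f := fun k => s.real (D7109 θ h α δ k N))
    rw [Finset.card_range] at h2
    exact h1.trans h2
  have hws : w.real c * s.real T ^ 2 ≤ (4 * N ^ 2 * CN * h0 ^ 4) * s.real T := by
    calc w.real c * s.real T ^ 2 ≤ w.real c * ((2 * N : ℕ) *
        ∑ k ∈ Finset.range (2 * N), s.real (D7109 θ h α δ k N) ^ 2) :=
          mul_le_mul_of_nonneg_left hsq hw0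
      _ = (2 * N : ℕ) * ∑ k ∈ Finset.range (2 * N),
          w.real c * s.real (D7109 θ h α δ k N) ^ 2 := by
          rw [← Finset.mul_sum]; ring
      _ ≤ (2 * N : ℕ) * ∑ k ∈ Finset.range (2 * N), CN * h0 ^ 4 * s.real T := by
          apply mul_le_mul_of_nonneg_left _ (Nat.cast_nonneg _)
          apply Finset.sum_le_sum
          intro k hk
          exact L k (Finset.mem_range.1 hk)
      _ = (4 * N ^ 2 * CN * h0 ^ 4) * s.real T := by
          rw [Finset.sum_const, Finset.card_range, nsmul_eq_mul]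
          push_cast; ring
  have hwT : w.real c * s.real T ≤ 4 * N ^ 2 * CN * h0 ^ 4 := by
    rcases hT0.eq_or_lt with h0' | h0'
    · rw [← h0', mul_zero]; positivity
    · have e : w.real c * s.real T ^ 2 = (w.real c * s.real T) * s.real T := by ring
      rw [e] at hws
      exact le_of_mul_le_mul_right hws h0'
  exact (mul_le_mul_of_nonneg_left hmono hw0).trans hwT

theorem HHU (θ h : X → ℝ) (geo : Geo θ h) (C0 : ℝ) (hC : 0 ≤ C0) (M : ℝ) (hM : 1 ≤ M) :
    ∃ C : ℝ, 0 ≤ C ∧ ∀ (s w : Measure X) (_ : IsFiniteMeasure s) (_ : IsFiniteMeasure w),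
      Testing θ h s w C0 → ∀ θ0 h0 : ℝ, 0 < h0 → h0 ≤ 1 →
      (w {x | nd (θ x - θ0) ≤ h0 ∧ h0 / 2 ≤ h x ∧ h x ≤ h0}).toReal *
        (s {y | nd (θ y - θ0) ≤ M * h0 ∧ h y ≤ M * h0}).toReal ≤ C * h0 ^ 4 := by
  obtain ⟨c0', hc0', C, hC', key'⟩ := HHsU θ h geo C0 hC M hM
  set c0 : ℝ := min c0' 1 with hc0d
  have hc0 : 0 < c0 := lt_min hc0' one_pos
  have hc01 : c0 ≤ 1 := min_le_right _ _
  have hc02 : c0 ≤ c0' := min_le_left _ _
  obtain ⟨L, hL, htop⟩ := top θ h geo C0 hC (c0 / 2) (by positivity) (by linarith)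
  refine ⟨C + L / c0 ^ 4, by positivity, ?_⟩
  intro s w _ _ hT θ0 h0 hh0 hh1
  rcases le_or_gt h0 c0 with hle | hgt
  · have h1 := key' s w inferInstance inferInstance hT θ0 h0 hh0 (hle.trans hc02)
    have h2 : C * h0 ^ 4 ≤ (C + L / c0 ^ 4) * h0 ^ 4 := by
      apply mul_le_mul_of_nonneg_right _ (by positivity)
      have : 0 ≤ L / c0 ^ 4 := by positivity
      linarith
    exact le_trans h1 h2
  · have h1 : (w {x | nd (θ x - θ0) ≤ h0 ∧ h0 / 2 ≤ h x ∧ h x ≤ h0}).toReal *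
        (s {y | nd (θ y - θ0) ≤ M * h0 ∧ h y ≤ M * h0}).toReal ≤
        w.real {x | c0 / 2 ≤ h x} * s.real univ := by
      apply mul_le_mul
      · refine measureReal_mono (μ := w) (fun x hx => ?_)
        have : h0 / 2 ≤ h x := hx.2.1
        show c0 / 2 ≤ h x
        linarith
      · exact measureReal_mono (μ := s) (subset_univ _)
      · exact ENNReal.toReal_nonneg
      · exact measureReal_nonneg
    have h2 := htop s w inferInstance inferInstance hT
    have h3 : c0 ^ 4 ≤ h0 ^ 4 := pow_le_pow_left₀ hc0.le hgt.le 4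
    have h4 : L ≤ L / c0 ^ 4 * h0 ^ 4 := by
      rw [div_mul_eq_mul_div, le_div_iff₀ (by positivity)]
      exact mul_le_mul_of_nonneg_left h3 hL
    have h5 : 0 ≤ C * h0 ^ 4 := by positivity
    rw [add_mul]
    linarith

end

end Pool.Agent.Y308.BQ
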