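import Pool.Agent.Y308.BQ.A2U
import Pool.Agent.Helper807.BT.MainB
import Pool.Agent.Helper807.BT.Fin2

/-!
# Uniform versions of the estimates of `Pool.Agent.Helper807.BT.MainB` (helper308)

The proofs are those of the starting file `Pool/Agent/Helper807/BT/MainB.lean`, with the measures
quantified after the constants.
-/

set_option autoImplicit false

open MeasureTheory Set
open scoped ENNReal

namespace Pool.Agent.Y308.BQ

noncomputable section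

open Pool.Agent.Helper807.BT

variable {X : Type*} [MeasurableSpace X]

theorem mainU (θ h : X → ℝ) (geo : Geo θ h) (C0 : ℝ) (hC : 0 ≤ C0) :
    ∃ C : ℝ, 0 ≤ C ∧ ∀ (s w : Measure X) (_ : IsFiniteMeasure s) (_ : IsFiniteMeasure w),
    Testing θ h s w C0 → Testing θ h w s C0 → ∀ f g : X → ℝ, Bdd f → Bdd g → ∀ N : ℕ,
    (∀ x, h x ≤ (1 / 2 : ℝ) ^ N → f x = 0) → (∀ x, h x ≤ (1 / 2 : ℝ) ^ N → g x = 0) →
    ‖Bf θ h s w f g‖ ≤ C * Real.sqrt (∫ x, f x ^ 2 ∂s) * Real.sqrt (∫ x, g x ^ 2 ∂w) := by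
  obtain ⟨A, hA0, hAU⟩ := A2U θ h geo C0 hC
  obtain ⟨C1, hC10, hC1⟩ := half_estimate (X := X) C0 A hC hA0
  obtain ⟨C2, hC20, hC2⟩ := diag_estimate (X := X) C0 A hC hA0
  refine ⟨Real.sqrt C0 + C1 + C1 + C2, by positivity, ?_⟩
  intro s w _ _ hT hT' f g hf hg N hfN hgN
  have hA := hAU s w inferInstance inferInstance hT hT'
  have hA' : A2 θ h w s A := by
    intro a l h1 h2
    rw [mul_comm]
    exact hA a l h1 h2
  have H : Hyp θ h s w C0 A := ⟨geo, hT, hA⟩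
  have H' : Hyp θ h w s C0 A := ⟨geo, hT', hA'⟩
  set F := Real.sqrt (∫ x, f x ^ 2 ∂s) with hF
  set Gg := Real.sqrt (∫ x, g x ^ 2 ∂w) with hGg
  have hmain : (2 : ℂ) ^ N * Bf θ h s w f g =
      ∑ m ∈ Finset.range (2 ^ N), Bf (rot θ ((m : ℝ) / 2 ^ N)) h s w
          (Ex (rot θ ((m : ℝ) / 2 ^ N)) h s 0 f) (Ex (rot θ ((m : ℝ) / 2 ^ N)) h w 0 g) +
      ∑ m ∈ Finset.range (2 ^ N), ∑ n ∈ Finset.range N,
          TT_7128 (rot θ ((m : ℝ) / 2 ^ N)) h s w f g n +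
      (starRingEnd ℂ) (∑ m ∈ Finset.range (2 ^ N), ∑ n ∈ Finset.range N,
          TT_7128 (rot θ ((m : ℝ) / 2 ^ N)) h w s g f n) +
      ∑ m ∈ Finset.range (2 ^ N), ∑ n ∈ Finset.range N,
          DG_7128 (rot θ ((m : ℝ) / 2 ^ N)) h s w f g n := by
    have h1 : (2 : ℂ) ^ N * Bf θ h s w f g =
        ∑ m ∈ Finset.range (2 ^ N), Bf θ h s w f g := by
      rw [Finset.sum_const, Finset.card_range, nsmul_eq_mul]
      push_cast
      rfl
    rw [h1, map_sum, ← Finset.sum_add_distrib, ← Finset.sum_add_distrib,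
      ← Finset.sum_add_distrib]
    apply Finset.sum_congr rfl
    intro m _
    rw [← rot_Bf θ h s w ((m : ℝ) / 2 ^ N) f g]
    have h2 := tele_7128 (rot_geo geo ((m : ℝ) / 2 ^ N)) s w hC
      (rot_hyp H ((m : ℝ) / 2 ^ N)).tst (rot_hyp H' ((m : ℝ) / 2 ^ N)).tst hf hg N
    rw [Ex_self_7128 _ _ _ _ _ hfN, Ex_self_7128 _ _ _ _ _ hgN] at h2
    rw [h2, map_sum, Finset.sum_add_distrib, Finset.sum_add_distrib]
    ring
  have b1 : ‖∑ m ∈ Finset.range (2 ^ N), Bf (rot θ ((m : ℝ) / 2 ^ N)) h s w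
          (Ex (rot θ ((m : ℝ) / 2 ^ N)) h s 0 f) (Ex (rot θ ((m : ℝ) / 2 ^ N)) h w 0 g)‖ ≤
      2 ^ N * (Real.sqrt C0 * F * Gg) := by
    refine (norm_sum_le _ _).trans ?_
    have hb : ∀ m ∈ Finset.range (2 ^ N), ‖Bf (rot θ ((m : ℝ) / 2 ^ N)) h s w
          (Ex (rot θ ((m : ℝ) / 2 ^ N)) h s 0 f) (Ex (rot θ ((m : ℝ) / 2 ^ N)) h w 0 g)‖ ≤
          Real.sqrt C0 * F * Gg := fun m _ =>
      first_7128 (rot_geo geo ((m : ℝ) / 2 ^ N)) s w hC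
        (rot_hyp H ((m : ℝ) / 2 ^ N)).tst hf hg
    refine (Finset.sum_le_sum hb).trans (le_of_eq ?_)
    rw [Finset.sum_const, Finset.card_range, nsmul_eq_mul]
    push_cast
    rfl
  have b2 := half_sum_7128 hC1 H hf hg N
  have b3 := half_sum_7128 hC1 H' hg hf N
  have b4 : ‖∑ m ∈ Finset.range (2 ^ N), ∑ n ∈ Finset.range N,
          DG_7128 (rot θ ((m : ℝ) / 2 ^ N)) h s w f g n‖ ≤ 2 ^ N * (C2 * F * Gg) := by
    refine (norm_sum_le _ _).trans ?_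
    have hb : ∀ m ∈ Finset.range (2 ^ N), ‖∑ n ∈ Finset.range N,
          DG_7128 (rot θ ((m : ℝ) / 2 ^ N)) h s w f g n‖ ≤ C2 * F * Gg := fun m _ =>
      hC2 _ _ _ _ (rot_hyp H ((m : ℝ) / 2 ^ N)) f g hf hg N
    refine (Finset.sum_le_sum hb).trans (le_of_eq ?_)
    rw [Finset.sum_const, Finset.card_range, nsmul_eq_mul]
    push_cast
    rfl
  rw [← hF, ← hGg] at b2 b3
  have h5 : ‖(2 : ℂ) ^ N * Bf θ h s w f g‖ ≤
      2 ^ N * (Real.sqrt C0 * F * Gg) + 2 ^ N * (C1 * F * Gg) + 2 ^ N * (C1 * Gg * F) +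
        2 ^ N * (C2 * F * Gg) := by
    rw [hmain]
    refine (norm_add_le _ _).trans (add_le_add ?_ b4)
    refine (norm_add_le _ _).trans (add_le_add ?_ ?_)
    · exact (norm_add_le _ _).trans (add_le_add b1 b2)
    · rw [RCLike.norm_conj]
      exact b3
  rw [norm_mul, norm_pow, Complex.norm_ofNat] at h5
  have h6 : (0 : ℝ) < 2 ^ N := by positivity
  have h7 : (2 : ℝ) ^ N * ‖Bf θ h s w f g‖ ≤
      2 ^ N * ((Real.sqrt C0 + C1 + C1 + C2) * F * Gg) := by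
    refine h5.trans (le_of_eq ?_)
    ring
  exact le_of_mul_le_mul_left h7 h6


theorem realU (θ h : X → ℝ) (geo : Geo θ h) (C0 : ℝ) (hC : 0 ≤ C0) :
    ∃ C : ℝ, 0 ≤ C ∧ ∀ (s w : Measure X) (_ : IsFiniteMeasure s) (_ : IsFiniteMeasure w),
    Testing θ h s w C0 → Testing θ h w s C0 → ∀ f : X → ℝ, Measurable f →
    ∫⁻ x, ‖f x‖ₑ ^ 2 ∂s < ∞ →
    ∫⁻ x, ‖Pop θ h s f x‖ₑ ^ 2 ∂w ≤ ENNReal.ofReal C * ∫⁻ x, ‖f x‖ₑ ^ 2 ∂s := by
  obtain ⟨C, hC1, hB⟩ := mainU θ h geo C0 hC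
  exact ⟨2 * C ^ 2, by positivity, fun s w _ _ hT hT' f hf hf2 =>
    L2_of_bilin θ h geo s w C hC1 (hB s w inferInstance inferInstance hT hT') f hf hf2⟩

end

end Pool.Agent.Y308.BQ
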