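import Pool.Agent.Helper807.BT.Layer
import Pool.Agent.Helper807.BT.Geo2

/-!
# The top scale: total mass bound from testing (helper308)
-/

set_option autoImplicit false

open MeasureTheory Set
open scoped ENNReal

namespace Pool.Agent.Y308.BQ

noncomputable section

open Pool.Agent.Helper807.BT

variable {X : Type*} [MeasurableSpace X]

theorem ph1 {v p : ℂ} {r c1 : ℝ} (hr0 : 0 ≤ r) (hr1 : r ≤ 1) (hc1 : 0 < c1) (hc1' : c1 ≤ 1)
    (hv : c1 ≤ v.re) (hv2 : ‖v‖ ≤ 2) (hp : p = ((1 - r : ℝ) : ℂ) + (r : ℂ) * v) :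
    c1 ^ 3 / 16 ≤ (v * (p ^ 2)⁻¹).re := by
  have hP : p.re = 1 - r + r * v.re := by rw [hp]; simp
  have hQ : p.im = r * v.im := by rw [hp]; simp
  have hPc : c1 ≤ p.re := by rw [hP]; nlinarith
  have hn : ‖p‖ ≤ 2 := by
    rw [hp]
    refine (norm_add_le _ _).trans ?_
    rw [norm_mul, Complex.norm_real, Complex.norm_real, Real.norm_eq_abs, Real.norm_eq_abs,
      abs_of_nonneg hr0, abs_of_nonneg (by linarith)]
    nlinarith
  have hn4 : Complex.normSq p ≤ 4 := by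
    rw [Complex.normSq_eq_norm_sq]; nlinarith [norm_nonneg p]
  have hn0 : 0 < Complex.normSq p := by
    rw [Complex.normSq_apply]; nlinarith [mul_self_nonneg p.im]
  have e : (v * (p ^ 2)⁻¹).re = (v.re * (p.re ^ 2 - p.im ^ 2) + 2 * v.im * p.re * p.im) /
      Complex.normSq p ^ 2 := by
    rw [Complex.mul_re, Complex.inv_re, Complex.inv_im, map_pow]
    have e1 : (p ^ 2).re = p.re ^ 2 - p.im ^ 2 := by rw [sq, Complex.mul_re]; ring
    have e2 : (p ^ 2).im = 2 * p.re * p.im := by rw [sq, Complex.mul_im]; ring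
    rw [e1, e2]
    ring
  rw [e, le_div_iff₀ (by positivity)]
  have h1 : v.re * (p.re ^ 2 - p.im ^ 2) + 2 * v.im * p.re * p.im =
      v.re * p.re ^ 2 + v.im ^ 2 * r * (2 * (1 - r) + r * v.re) := by
    rw [hP, hQ]; ring
  have hv0 : 0 ≤ v.re := hc1.le.trans hv
  have h2 : 0 ≤ v.im ^ 2 * r * (2 * (1 - r) + r * v.re) := by
    have : 0 ≤ 1 - r := by linarith
    positivity
  have h3 : c1 ^ 3 ≤ v.re * p.re ^ 2 := by
    have := pow_le_pow_left₀ hc1.le hPc 2
    calc c1 ^ 3 = c1 * c1 ^ 2 := by ring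
      _ ≤ v.re * p.re ^ 2 := mul_le_mul hv this (by positivity) hv0
  have h4 : Complex.normSq p ^ 2 ≤ 16 := by nlinarith
  have h5 : c1 ^ 3 / 16 * Complex.normSq p ^ 2 ≤ c1 ^ 3 / 16 * 16 :=
    mul_le_mul_of_nonneg_left h4 (by positivity)
  rw [h1]
  linarith

theorem v_bounds {u : ℝ × ℝ} {a c1 : ℝ} (hc1 : 0 < c1) (hu : c1 ≤ u.2) (hu1 : u.2 ≤ 1) :
    c1 ≤ (den u (a, 0)).re ∧ ‖den u (a, 0)‖ ≤ 2 := by
  constructor
  · rw [(den_re_im_7105 u (a, 0)).1]
    have h1 := Real.cos_le_one (2 * Real.pi * (u.1 - a))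
    show c1 ≤ 1 - (1 - u.2) * (1 - 0) * Real.cos (2 * Real.pi * (u.1 - a))
    nlinarith [mul_nonneg (show 0 ≤ 1 - u.2 by linarith)
      (show 0 ≤ 1 - Real.cos (2 * Real.pi * (u.1 - a)) by linarith)]
  · unfold den
    refine (norm_sub_le _ _).trans ?_
    rw [norm_one, norm_mul, norm_e_7104, mul_one, Complex.norm_real, Real.norm_eq_abs]
    show 1 + |(1 - u.2) * (1 - 0)| ≤ 2
    rw [sub_zero, mul_one, abs_of_nonneg (by linarith)]
    linarith

theorem ph2 {c1 δ a : ℝ} (hc1 : 0 < c1) (hc1' : c1 ≤ 1) {u y : ℝ × ℝ} (hu : c1 ≤ u.2)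
    (hu1 : u.2 ≤ 1) (hy0 : 0 ≤ y.2) (hy1 : y.2 ≤ 1)
    (hclose : ‖den u y - den u (a, y.2)‖ ≤ 7 * δ) (hδ : 896 * δ ≤ c1 ^ 6) :
    c1 ^ 3 / 32 ≤ (den u (a, 0) * kap u y).re := by
  obtain ⟨hv, hv2⟩ := v_bounds (a := a) hc1 hu hu1
  set v := den u (a, 0) with hvd
  have hp : den u (a, y.2) = ((1 - (1 - y.2) : ℝ) : ℂ) + ((1 - y.2 : ℝ) : ℂ) * v := by
    rw [hvd]
    unfold den
    push_cast
    ring
  have h1 := ph1 (r := 1 - y.2) (by linarith) (by linarith) hc1 hc1' hv hv2 hp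
  have hu0 : 0 ≤ u.2 := hc1.le.trans hu
  have k1 : c1 ≤ ‖den y u‖ := hu.trans (den_ge_right hy0 hy1 hu0 hu1)
  have k2 : c1 ≤ ‖den (a, y.2) u‖ := hu.trans (den_ge_right (u := (a, y.2)) hy0 hy1 hu0 hu1)
  have h2 := kap_sub_le hc1 k1 k2
  have e1 : ‖kap u y - kap u (a, y.2)‖ = ‖kap y u - kap (a, y.2) u‖ := by
    rw [kap_conj y u, kap_conj (a, y.2) u, ← map_sub, RCLike.norm_conj]
  have e2 : ‖den y u - den (a, y.2) u‖ = ‖den u y - den u (a, y.2)‖ := by
    rw [den_conj_7104 u y, den_conj_7104 u (a, y.2), ← map_sub, RCLike.norm_conj]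
  rw [← e1, e2] at h2
  have h3 : ‖kap u y - kap u (a, y.2)‖ ≤ c1 ^ 3 / 64 := by
    refine h2.trans ?_
    rw [div_le_iff₀ (by positivity)]
    have e3 : c1 ^ 3 / 64 * c1 ^ 3 = c1 ^ 6 / 64 := by ring
    rw [e3]
    linarith
  have h4 : ‖v * (kap u y - kap u (a, y.2))‖ ≤ c1 ^ 3 / 32 := by
    rw [norm_mul]
    calc ‖v‖ * ‖kap u y - kap u (a, y.2)‖ ≤ 2 * (c1 ^ 3 / 64) :=
          mul_le_mul hv2 h3 (norm_nonneg _) (by norm_num)
      _ = c1 ^ 3 / 32 := by ring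
  have h5 : -(c1 ^ 3 / 32) ≤ (v * (kap u y - kap u (a, y.2))).re := by
    have := (abs_le.1 ((Complex.abs_re_le_norm _).trans h4)).1
    exact this
  have e4 : v * kap u y = v * ((den u (a, y.2)) ^ 2)⁻¹ + v * (kap u y - kap u (a, y.2)) := by
    have : kap u (a, y.2) = ((den u (a, y.2)) ^ 2)⁻¹ := rfl
    rw [this]
    ring
  rw [e4, Complex.add_re]
  linarith

theorem close1 {u y : ℝ × ℝ} {a δ : ℝ} (hu0 : 0 ≤ u.2) (hu1 : u.2 ≤ 1) (hy0 : 0 ≤ y.2)
    (hy1 : y.2 ≤ 1) (hδ : 0 ≤ δ) (h : 1 - δ ≤ y.2 ∨ nd (y.1 - a) ≤ δ) :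
    ‖den u y - den u (a, y.2)‖ ≤ 7 * δ := by
  rcases h with h | h
  · have e : den u y - den u (a, y.2) = (((1 - u.2) * (1 - y.2) : ℝ) : ℂ) *
        (Complex.exp (((2 * Real.pi * (u.1 - a) : ℝ) : ℂ) * Complex.I) -
          Complex.exp (((2 * Real.pi * (u.1 - y.1) : ℝ) : ℂ) * Complex.I)) := by
      unfold den
      ring
    rw [e, norm_mul, Complex.norm_real, Real.norm_eq_abs,
      abs_of_nonneg (mul_nonneg (by linarith) (by linarith))]
    have h1 := norm_sub_le (Complex.exp (((2 * Real.pi * (u.1 - a) : ℝ) : ℂ) * Complex.I))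
      (Complex.exp (((2 * Real.pi * (u.1 - y.1) : ℝ) : ℂ) * Complex.I))
    rw [norm_e_7104, norm_e_7104] at h1
    have h2 : (1 - u.2) * (1 - y.2) ≤ 1 * δ :=
      mul_le_mul (by linarith) (by linarith) (by linarith) (by norm_num)
    calc (1 - u.2) * (1 - y.2) * _ ≤ (1 * δ) * (1 + 1) :=
          mul_le_mul h2 h1 (norm_nonneg _) (by linarith)
      _ ≤ 7 * δ := by linarith
  · have h1 := den_sub_le_right (v := y) (v' := (a, y.2)) hu0 hu1 hy0 hy1 hy0 hy1
    refine h1.trans ?_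
    have hpi := Real.pi_lt_d2
    have hpi0 := Real.pi_pos
    have hnd0 : 0 ≤ nd (y.1 - a) := abs_nonneg _
    show |y.2 - y.2| + 2 * Real.pi * nd (y.1 - a) ≤ 7 * δ
    rw [sub_self, abs_zero, zero_add]
    exact mul_le_mul (by linarith) h hnd0 (by norm_num)

theorem cover1 {θ h : X → ℝ} (geo : Geo θ h) (N : ℕ) (hN : 1 ≤ N) (y : X) :
    ∃ k ∈ Finset.range N, 1 - 1 / (N : ℝ) ≤ Int.fract (θ y - (k : ℝ) / N) := by
  have hN0 : (0 : ℝ) < N := by exact_mod_cast hN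
  have h0 := geo.θ0 y
  have h1 := geo.θ1 y
  have hm0 : 0 ≤ (N : ℝ) * θ y := by positivity
  set m : ℕ := ⌊(N : ℝ) * θ y⌋₊ with hm
  have hm1 : (m : ℝ) ≤ N * θ y := Nat.floor_le hm0
  have hm2 : (N : ℝ) * θ y < m + 1 := Nat.lt_floor_add_one _
  have hmN : m < N := by
    have : (m : ℝ) < N := lt_of_le_of_lt hm1 (by nlinarith)
    exact_mod_cast this
  rcases Nat.lt_or_ge (m + 1) N with h | h
  · refine ⟨m + 1, Finset.mem_range.2 h, ?_⟩
    have e1 : -(1 / (N : ℝ)) ≤ θ y - ((m + 1 : ℕ) : ℝ) / N := by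
      rw [← sub_nonneg]
      have : θ y - ((m + 1 : ℕ) : ℝ) / N - -(1 / (N : ℝ)) = (N * θ y - m) / N := by
        push_cast; field_simp; ring
      rw [this]
      exact div_nonneg (by linarith) hN0.le
    have e2 : θ y - ((m + 1 : ℕ) : ℝ) / N < 0 := by
      rw [sub_neg, lt_div_iff₀ hN0]
      push_cast
      linarith
    have e3 : Int.fract (θ y - ((m + 1 : ℕ) : ℝ) / N) = θ y - ((m + 1 : ℕ) : ℝ) / N + 1 := by
      rw [Int.fract_eq_iff]
      have h1N : 1 / (N : ℝ) ≤ 1 := by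
        rw [div_le_one hN0]; exact_mod_cast hN
      exact ⟨by linarith, by linarith, -1, by push_cast; ring⟩
    rw [e3]
    linarith
  · refine ⟨0, Finset.mem_range.2 (by omega), ?_⟩
    have hmN' : m + 1 = N := by omega
    have e3 : Int.fract (θ y - ((0 : ℕ) : ℝ) / N) = θ y := by
      rw [Nat.cast_zero, zero_div, sub_zero, Int.fract_eq_self]
      exact ⟨h0, h1⟩
    rw [e3]
    have hmR : (m : ℝ) + 1 = N := by exact_mod_cast hmN'
    have : (1 : ℝ) - 1 / N = m / N := by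
      rw [← hmR]
      have : (m : ℝ) + 1 ≠ 0 := by positivity
      field_simp
      ring
    rw [this, div_le_iff₀ hN0]
    linarith

theorem pop_ind {θ h : X → ℝ} (s : Measure X) (x : X) (B : Set X) (hB : MeasurableSet B) :
    Pop θ h s (B.indicator 1) x = ∫ y in B, K θ h x y ∂s := by
  unfold Pop
  rw [← integral_indicator hB]
  congr 1
  funext y
  by_cases hy : y ∈ B
  · simp [hy]
  · simp [hy]

theorem K_int {θ h : X → ℝ} (geo : Geo θ h) (s : Measure X) [IsFiniteMeasure s] (x : X) :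
    Integrable (fun y => K θ h x y) s :=
  Integrable.of_bound (mK_7109 geo x).aestronglyMeasurable (((h x) ^ 2)⁻¹)
    (Filter.Eventually.of_forall fun y => norm_K_le_left geo x y)

theorem top (θ h : X → ℝ) (geo : Geo θ h) (C0 : ℝ) (hC : 0 ≤ C0) (c1 : ℝ) (hc1 : 0 < c1)
    (hc1' : c1 ≤ 1) :
    ∃ L : ℝ, 0 ≤ L ∧ ∀ (s w : Measure X) (_ : IsFiniteMeasure s) (_ : IsFiniteMeasure w),
      Testing θ h s w C0 → w.real {x | c1 ≤ h x} * s.real univ ≤ L := by
  obtain ⟨N, hN⟩ := exists_nat_ge (896 / c1 ^ 6)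
  have hc6 : c1 ^ 6 ≤ 1 := pow_le_one₀ hc1.le hc1'
  have hN1 : (896 : ℝ) ≤ N := by
    refine le_trans ?_ hN
    rw [le_div_iff₀ (by positivity)]
    linarith
  have hN0 : (0 : ℝ) < N := by linarith
  have hNn : 1 ≤ N := by
    have : (1 : ℝ) ≤ N := by linarith
    exact_mod_cast this
  set δ : ℝ := 1 / N with hδd
  have hδ0 : 0 < δ := by positivity
  have hδ1 : δ ≤ 1 / 896 := one_div_le_one_div_of_le (by norm_num) hN1
  have hδ : 896 * δ ≤ c1 ^ 6 := by
    rw [div_le_iff₀ (by positivity)] at hN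
    rw [hδd, mul_one_div, div_le_iff₀ hN0]
    linarith
  refine ⟨4 * C0 * N ^ 2 * (64 / c1 ^ 3) ^ 2, by positivity, ?_⟩
  intro s w _ _ hT
  have hIm : MeasurableSet {x | c1 ≤ h x} := measurableSet_le measurable_const geo.mh
  have hQm : ∀ a l, MeasurableSet (arcBox θ h a l) := fun a l => measurableSet_arcBox geo a l
  have huniv : arcBox θ h 0 1 = univ := by
    ext y
    simp only [arcBox, mem_univ, iff_true]
    exact ⟨Int.fract_lt_one _, geo.h1 y⟩
  have hlow : ∀ a x, c1 ≤ h x → c1 ^ 3 / 64 * s.real (arcBox θ h a (1 - δ))ᶜ ≤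
      ‖Pop θ h s ((arcBox θ h a (1 - δ))ᶜ.indicator 1) x‖ := by
    intro a x hx
    obtain ⟨-, hv2⟩ := v_bounds (u := (θ x, h x)) (a := a) hc1 hx (geo.h1 x)
    set v := den (θ x, h x) (a, 0) with hv
    have h1 : c1 ^ 3 / 32 * s.real (arcBox θ h a (1 - δ))ᶜ ≤
        (v * Pop θ h s ((arcBox θ h a (1 - δ))ᶜ.indicator 1) x).re := by
      rw [re_Pop_7109 geo s v x _ (hQm a _).compl]
      have e : ∫ y in (arcBox θ h a (1 - δ))ᶜ, (c1 ^ 3 / 32 : ℝ) ∂s =
          c1 ^ 3 / 32 * s.real (arcBox θ h a (1 - δ))ᶜ := by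
        rw [setIntegral_const, smul_eq_mul, mul_comm]
      rw [← e]
      refine setIntegral_mono_on (integrable_const _).integrableOn
        (int_g_7109 geo s v x).integrableOn (hQm a _).compl (fun y hy => ?_)
      refine ph2 hc1 hc1' (u := (θ x, h x)) (y := (θ y, h y)) hx (geo.h1 x) (geo.h0 y).le
        (geo.h1 y) (close1 (geo.h0 x).le (geo.h1 x) (geo.h0 y).le (geo.h1 y) hδ0.le ?_) hδ
      by_cases hy1 : h y ≤ 1 - δ
      · right
        have hy2 : 1 - δ ≤ Int.fract (θ y - a) := by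
          by_contra hcon
          push Not at hcon
          exact hy ⟨hcon, hy1⟩
        refine (nd_le_7109 (θ y - a) (⌊θ y - a⌋ + 1)).trans ?_
        have e1 := Int.self_sub_floor (θ y - a)
        have e2 := Int.fract_lt_one (θ y - a)
        rw [abs_le]
        push_cast
        constructor <;> linarith
      · left
        push Not at hy1
        exact hy1.le
    have h2 : (v * Pop θ h s ((arcBox θ h a (1 - δ))ᶜ.indicator 1) x).re ≤
        2 * ‖Pop θ h s ((arcBox θ h a (1 - δ))ᶜ.indicator 1) x‖ := by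
      refine (Complex.re_le_norm _).trans ?_
      rw [norm_mul]
      exact mul_le_mul_of_nonneg_right hv2 (norm_nonneg _)
    linarith
  have hup : ∀ a, w.real {x | c1 ≤ h x} * (c1 ^ 3 / 64 * s.real (arcBox θ h a (1 - δ))ᶜ) ^ 2 ≤
      4 * C0 * s.real univ := by
    intro a
    obtain ⟨i1, b1⟩ := test_real_7109 geo s w hC hT 0 1 one_pos le_rfl
    obtain ⟨i2, b2⟩ := test_real_7109 geo s w hC hT a (1 - δ) (by linarith) (by linarith)
    have hPm : Measurable (Pop θ h s ((arcBox θ h a (1 - δ))ᶜ.indicator 1)) :=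
      measurable_Pop_7109 geo s _ (hQm a _).compl
    have e : ∀ x, Pop θ h s ((arcBox θ h a (1 - δ))ᶜ.indicator 1) x =
        Pop θ h s ((arcBox θ h 0 1).indicator 1) x -
          Pop θ h s ((arcBox θ h a (1 - δ)).indicator 1) x := by
      intro x
      rw [pop_ind s x _ (hQm a _).compl, pop_ind s x _ (hQm 0 1), pop_ind s x _ (hQm a _), huniv,
        Measure.restrict_univ, setIntegral_compl (hQm a _) (K_int geo s x)]
    have hb : ∀ x, ‖Pop θ h s ((arcBox θ h a (1 - δ))ᶜ.indicator 1) x‖ ^ 2 ≤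
        2 * ‖Pop θ h s ((arcBox θ h 0 1).indicator 1) x‖ ^ 2 +
          2 * ‖Pop θ h s ((arcBox θ h a (1 - δ)).indicator 1) x‖ ^ 2 := by
      intro x
      rw [e x]
      have h1 := norm_sub_le (Pop θ h s ((arcBox θ h 0 1).indicator 1) x)
        (Pop θ h s ((arcBox θ h a (1 - δ)).indicator 1) x)
      have h2 := norm_nonneg (Pop θ h s ((arcBox θ h 0 1).indicator 1) x -
        Pop θ h s ((arcBox θ h a (1 - δ)).indicator 1) x)
      nlinarith [sq_nonneg (‖Pop θ h s ((arcBox θ h 0 1).indicator 1) x‖ -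
        ‖Pop θ h s ((arcBox θ h a (1 - δ)).indicator 1) x‖)]
    have i3 : Integrable (fun x => 2 * ‖Pop θ h s ((arcBox θ h 0 1).indicator 1) x‖ ^ 2 +
          2 * ‖Pop θ h s ((arcBox θ h a (1 - δ)).indicator 1) x‖ ^ 2) w :=
      (i1.const_mul 2).add (i2.const_mul 2)
    have i4 : Integrable (fun x => ‖Pop θ h s ((arcBox θ h a (1 - δ))ᶜ.indicator 1) x‖ ^ 2) w := by
      refine i3.mono' (hPm.norm.pow_const 2).aestronglyMeasurable
        (Filter.Eventually.of_forall fun x => ?_)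
      rw [Real.norm_eq_abs, abs_of_nonneg (by positivity)]
      exact hb x
    have hs1 : s.real (arcBox θ h 0 1) ≤ s.real univ := measureReal_mono (subset_univ _)
    have hs2 : s.real (arcBox θ h a (1 - δ)) ≤ s.real univ := measureReal_mono (subset_univ _)
    calc w.real {x | c1 ≤ h x} * (c1 ^ 3 / 64 * s.real (arcBox θ h a (1 - δ))ᶜ) ^ 2
        = ∫ _x in {x | c1 ≤ h x}, (c1 ^ 3 / 64 * s.real (arcBox θ h a (1 - δ))ᶜ) ^ 2 ∂w := by
          rw [setIntegral_const, smul_eq_mul]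
      _ ≤ ∫ x in {x | c1 ≤ h x}, ‖Pop θ h s ((arcBox θ h a (1 - δ))ᶜ.indicator 1) x‖ ^ 2 ∂w := by
          refine setIntegral_mono_on (integrable_const _).integrableOn i4.integrableOn hIm
            (fun x hx => ?_)
          exact pow_le_pow_left₀ (by positivity) (hlow a x hx) 2
      _ ≤ ∫ x, ‖Pop θ h s ((arcBox θ h a (1 - δ))ᶜ.indicator 1) x‖ ^ 2 ∂w :=
          setIntegral_le_integral i4 (Filter.Eventually.of_forall fun x => by positivity)
      _ ≤ ∫ x, (2 * ‖Pop θ h s ((arcBox θ h 0 1).indicator 1) x‖ ^ 2 +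
          2 * ‖Pop θ h s ((arcBox θ h a (1 - δ)).indicator 1) x‖ ^ 2) ∂w :=
          integral_mono i4 i3 hb
      _ = 2 * (∫ x, ‖Pop θ h s ((arcBox θ h 0 1).indicator 1) x‖ ^ 2 ∂w) +
          2 * ∫ x, ‖Pop θ h s ((arcBox θ h a (1 - δ)).indicator 1) x‖ ^ 2 ∂w := by
          rw [integral_add (i1.const_mul 2) (i2.const_mul 2), integral_const_mul,
            integral_const_mul]
      _ ≤ 2 * (C0 * s.real univ) + 2 * (C0 * s.real univ) := by
          refine add_le_add (mul_le_mul_of_nonneg_left (b1.trans ?_) (by norm_num))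
            (mul_le_mul_of_nonneg_left (b2.trans ?_) (by norm_num))
          · exact mul_le_mul_of_nonneg_left hs1 hC
          · exact mul_le_mul_of_nonneg_left hs2 hC
      _ = 4 * C0 * s.real univ := by ring
  -- pigeonhole
  have hcov : ∃ k ∈ Finset.range N, s.real univ ≤
      N * s.real (arcBox θ h ((k : ℝ) / N) (1 - δ))ᶜ := by
    by_contra hcon
    push Not at hcon
    have h1 : s.real univ ≤ ∑ k ∈ Finset.range N,
        s.real (arcBox θ h ((k : ℝ) / N) (1 - δ))ᶜ := by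
      refine le_trans ?_ (measureReal_biUnion_finset_le _ _)
      refine measureReal_mono (fun y _ => ?_) (measure_ne_top s _)
      obtain ⟨k, hk, hk2⟩ := cover1 geo N hNn y
      refine mem_iUnion₂.2 ⟨k, hk, fun hy => ?_⟩
      exact absurd hy.1 (not_lt.2 hk2)
    have h2 : ∑ k ∈ Finset.range N, s.real (arcBox θ h ((k : ℝ) / N) (1 - δ))ᶜ <
        ∑ _k ∈ Finset.range N, s.real univ / N := by
      refine Finset.sum_lt_sum_of_nonempty ⟨0, Finset.mem_range.2 hNn⟩ (fun k hk => ?_)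
      rw [lt_div_iff₀ hN0, mul_comm]
      exact hcon k hk
    rw [Finset.sum_const, Finset.card_range, nsmul_eq_mul, mul_div_cancel₀ _ hN0.ne'] at h2
    linarith
  obtain ⟨k, -, hk⟩ := hcov
  have h3 := hup ((k : ℝ) / N)
  set F : ℝ := s.real (arcBox θ h ((k : ℝ) / N) (1 - δ))ᶜ with hF
  set S : ℝ := s.real univ with hS
  set W : ℝ := w.real {x | c1 ≤ h x} with hW
  have hS0 : 0 ≤ S := measureReal_nonneg
  have hW0 : 0 ≤ W := measureReal_nonneg
  have hF0 : 0 ≤ F := measureReal_nonneg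
  rcases hS0.eq_or_lt with h0 | h0
  · rw [← h0, mul_zero]; positivity
  · have h4 : S ^ 2 ≤ N ^ 2 * F ^ 2 := by
      have := pow_le_pow_left₀ hS0 hk 2
      rwa [mul_pow] at this
    have h5 : W * S * S ≤ 4 * C0 * N ^ 2 * (64 / c1 ^ 3) ^ 2 * S := by
      have h6 : W * S ^ 2 ≤ W * (N ^ 2 * F ^ 2) := mul_le_mul_of_nonneg_left h4 hW0
      have h7 : W * (N ^ 2 * F ^ 2) = (N ^ 2 * (64 / c1 ^ 3) ^ 2) *
          (W * (c1 ^ 3 / 64 * F) ^ 2) := by
        field_simp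
      have h8 : (N ^ 2 * (64 / c1 ^ 3) ^ 2) * (W * (c1 ^ 3 / 64 * F) ^ 2) ≤
          (N ^ 2 * (64 / c1 ^ 3) ^ 2) * (4 * C0 * S) :=
        mul_le_mul_of_nonneg_left h3 (by positivity)
      calc W * S * S = W * S ^ 2 := by ring
        _ ≤ (N ^ 2 * (64 / c1 ^ 3) ^ 2) * (4 * C0 * S) := by rw [← h7] at h8; linarith
        _ = _ := by ring
    exact le_of_mul_le_mul_right h5 h0

end

end Pool.Agent.Y308.BQ
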